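import Pool.Agent.P.MP_9344a7_nt.Od.Iface
import Pool.Agent.P.MP_9344a7_nt.Hy.M3
import Pool.Agent.P.MP_9344a7_nt.Hy.M4

/-! Steps CVR, PAR, LF2, FEB, FER. -/

set_option linter.unusedSectionVars false
set_option linter.unusedVariables false

namespace Pool.Agent.P.MP_9344a7_nt.Od

open Polynomial Finset
open Pool.Agent.P.MP_6f117a_ag (Place FF)
open Pool.Agent.P.MP_ab3ecb_nt.Inv (Dv deg SA LS)
open Pool.Agent.P.MP_9344a7_nt.R
open Pool.Agent.P.MP_9344a7_nt.Hy
open scoped Classical ComplexConjugate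

section

lemma ocvr_m {q n e μ B m o h l c D : ℕ} (hq : 0 < q) (he : e ≠ 0) (h1 : q ^ (n * e + 1) ≤ o ^ e)
    (h2 : m * o ≤ h * l) (h3 : h ≤ c * q ^ (n + 1)) (h4 : l ≤ D * q ^ μ)
    (h5 : (B * c * D) ^ e ≤ q) : B * m ≤ q ^ (μ + 1) := by
  have a1 : B * m * o ≤ (B * c * D) * (q ^ n * q ^ (μ + 1)) := by
    calc B * m * o = B * (m * o) := by ring
      _ ≤ B * ((c * q ^ (n + 1)) * (D * q ^ μ)) :=
        Nat.mul_le_mul_left _ (h2.trans (Nat.mul_le_mul h3 h4))
      _ = _ := by ring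
  have a2 : (B * m) ^ e * q ^ (n * e + 1) ≤ (q ^ (μ + 1)) ^ e * q ^ (n * e + 1) := by
    calc (B * m) ^ e * q ^ (n * e + 1) ≤ (B * m) ^ e * o ^ e := Nat.mul_le_mul_left _ h1
      _ = (B * m * o) ^ e := (mul_pow _ _ _).symm
      _ ≤ ((B * c * D) * (q ^ n * q ^ (μ + 1))) ^ e := Nat.pow_le_pow_left a1 _
      _ = (B * c * D) ^ e * (q ^ n * q ^ (μ + 1)) ^ e := mul_pow _ _ _
      _ ≤ q * (q ^ n * q ^ (μ + 1)) ^ e := Nat.mul_le_mul_right _ h5
      _ = _ := by rw [mul_pow, ← pow_mul q n e, pow_succ q (n * e)]; ring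
  exact (Nat.pow_le_pow_iff_left he).1 (Nat.le_of_mul_le_mul_right a2 (pow_pos hq _))

lemma ocvr_t {q n μ E τ K c t z m : ℕ} (hq : 0 < q) (h0 : 0 < μ) (hn : μ ≤ n)
    (h1 : q * t ^ 2 ≤ z * (q * (c * q ^ n) + m * (c * q ^ n)))
    (h2 : z ≤ K * τ ^ 2 * q ^ (n - μ)) (h3 : 2 * E ^ 2 * K * c * τ ^ 4 ≤ q)
    (h4 : 2 * E ^ 2 * K * c * τ ^ 4 * m ≤ q ^ (μ + 1)) : τ * (E * t) ≤ q ^ n := by
  obtain ⟨r, rfl⟩ := Nat.exists_eq_add_of_le hn
  rw [Nat.add_sub_cancel_left] at h2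
  have a1 : 2 * E ^ 2 * K * c * τ ^ 4 * q ≤ q ^ (μ + 1) := by
    rw [pow_succ q μ]
    exact Nat.mul_le_mul_right _ (h3.trans (Nat.le_self_pow h0.ne' q))
  have a2 : (2 * q) * (τ * (E * t)) ^ 2 ≤ (2 * q) * (q ^ (μ + r)) ^ 2 := by
    calc (2 * q) * (τ * (E * t)) ^ 2 = 2 * E ^ 2 * τ ^ 2 * (q * t ^ 2) := by ring
      _ ≤ 2 * E ^ 2 * τ ^ 2 * ((K * τ ^ 2 * q ^ r) *
          (q * (c * q ^ (μ + r)) + m * (c * q ^ (μ + r)))) :=
        Nat.mul_le_mul_left _ (h1.trans (Nat.mul_le_mul_right _ h2))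
      _ = (2 * E ^ 2 * K * c * τ ^ 4 * q + 2 * E ^ 2 * K * c * τ ^ 4 * m) *
          (q ^ r * q ^ (μ + r)) := by ring
      _ ≤ (q ^ (μ + 1) + q ^ (μ + 1)) * (q ^ r * q ^ (μ + r)) :=
        Nat.mul_le_mul_right _ (Nat.add_le_add a1 h4)
      _ = _ := by ring
  exact (Nat.pow_le_pow_iff_left two_ne_zero).1 (Nat.le_of_mul_le_mul_left a2 (by omega))

theorem p_CVR (hTAU : S_TAU) (hKRO : S_KRO) (hOR : S_OR) (hPER : S_PER) (hCOS : S_COS) :
    S_CVR := by
  intro c n e K E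
  obtain ⟨q1, h1⟩ := hTAU c (n + 1) (2 * E ^ 2 * K * c) 4
  obtain ⟨q2, h2⟩ := hTAU c (n + 1) ((2 * E ^ 2 * K * c * c * K) ^ e) (6 * e)
  refine ⟨q1 + q2 + 2, ?_⟩
  intro q p A _ _ Λ P hq big gd kp lo χ hχ y w μ hμ hμn hy sy sw
  have hh : Nat.card A ≠ 0 := Nat.card_pos.ne'
  obtain ⟨hR, t1⟩ := h1 q _ (by omega) hh big.le
  obtain ⟨-, t2⟩ := h2 q _ (by omega) hh big.le
  have hq0 : 0 < q := by omega
  set τ := #(Nat.card A).divisors with hτ
  change om A ≤ τ at hR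
  have he : e ≠ 0 := by
    rintro rfl
    have := lo.le
    simp at this
    omega
  have ho : orderOf (p : ZMod (Nat.card A)) ≠ 0 := fun e0 => by
    have := lo.le
    rw [e0, zero_pow he] at this
    exact absurd this (not_le.2 (pow_pos hq0 _))
  have hcop : p.Coprime (Nat.card A) :=
    (ZMod.isUnit_iff_coprime _ _).1 (IsUnit.of_pow_eq_one (pow_orderOf_eq_one _) ho)
  obtain ⟨a0, ha0⟩ := lo.pw
  obtain ⟨t, ε, hε, hk⟩ := hKRO A χ hχ y p (a0 * μ) lo.pr hcop (by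
    rw [hy, ha0, pow_mul]; push_cast; rfl)
  have hy0 : 0 < sz y := Nat.pos_of_ne_zero fun e0 => by
    have : y = 0 := by
      have := Finsupp.support_eq_empty.1 (card_eq_zero.1 e0)
      ext a
      rw [this]
      rfl
    rw [this, map_zero, zero_mul] at hy
    exact absurd hy.symm (pow_ne_zero _ (Nat.cast_ne_zero.2 hq0.ne'))
  have hR0 : 0 < om A := Nat.two_pow_pos _
  obtain ⟨z, H, hH, hz⟩ := hPER A big.cyc p t (om A * sz y) (Nat.mul_pos hR0 hy0)
  have hRR : ∀ s k : ℕ, s ≤ K * om A * k → om A * s ≤ K * τ ^ 2 * k := fun s k hs => by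
    calc om A * s ≤ τ * (K * τ * k) :=
        Nat.mul_le_mul hR (hs.trans (Nat.mul_le_mul_right _ (Nat.mul_le_mul_left _ hR)))
      _ = _ := by ring
  let Z : ℕ → Finset A := fun d =>
    (P.coeff.support ×ˢ w.coeff.support).image fun u => u.1 + z d + u.2
  let T : ℕ → Finset A := fun d => {x | (Λ.W n).coeff x ≠ 0 ∧ ∃ u ∈ Z d, x - u ∈ H d}
  have hT : ∀ d, τ * (E * #(T d)) ≤ q ^ n := fun d => by
    refine ocvr_t hq0 hμ hμn (hCOS A (Λ.W n) q (c * q ^ n) (c * q ^ n) (Λ.nn n)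
      (by exact_mod_cast gd.e0 n le_rfl) (fun b hb => by exact_mod_cast gd.e1 n le_rfl b hb)
      (H d) (Z d) (T d) fun x hx => (mem_filter.1 hx).2) ?_ t1 ?_
    · refine card_image_le.trans ?_
      rw [card_product]
      exact (Nat.mul_le_mul_right _ kp.sz).trans (hRR _ _ sw)
    · refine ocvr_m hq0 he lo.le (hH d) big.le (hRR _ _ sy) (le_of_eq_of_le ?_ t2)
      rw [pow_mul, ← mul_pow]
      congr 1
      ring
  have hsub : ({x | (Λ.W n).coeff x ≠ 0 ∧ (P * (y * w)).coeff x ≠ 0} : Finset A) ⊆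
      (Nat.card A).divisors.biUnion T := fun x hx => by
    obtain ⟨hx1, hx2⟩ := (mem_filter.1 hx).2
    rw [← mul_assoc] at hx2
    obtain ⟨a, ha, hw⟩ := mul_ne hx2
    obtain ⟨b, k, hb, hk0, hkl, hit⟩ := hOR A P kp χ hχ y p t ε hcop hε hk a ha
    obtain ⟨d, hd, hm⟩ := hz (a - b) k hk0 hkl hit
    refine mem_biUnion.2 ⟨d, hd, mem_filter.2 ⟨mem_univ _, hx1, b + z d + (x - a),
      mem_image.2 ⟨(b, x - a), mem_product.2 ⟨Finsupp.mem_support_iff.2 hb,
        Finsupp.mem_support_iff.2 hw⟩, rfl⟩, ?_⟩⟩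
    convert hm using 1
    abel
  have hτ0 : 0 < τ := hR0.trans_le hR
  refine Nat.le_of_mul_le_mul_left ?_ hτ0
  calc τ * (E * _) ≤ τ * (E * ∑ d ∈ (Nat.card A).divisors, #(T d)) :=
      Nat.mul_le_mul_left _ (Nat.mul_le_mul_left _ ((card_le_card hsub).trans card_biUnion_le))
    _ = ∑ d ∈ (Nat.card A).divisors, τ * (E * #(T d)) := by rw [mul_sum, mul_sum]
    _ ≤ _ := by
      rw [hτ, ← smul_eq_mul]
      exact sum_le_card_nsmul _ _ _ fun d _ => hT d

end

section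

lemma opar_sq {A : Type} [AddCommGroup A] (y : ZA A) :
    ∃ z, y * y = pu (nsmulAddMonoidHom 2) y + 2 * z := by
  induction y using AddMonoidAlgebra.induction_linear with
  | zero => exact ⟨0, by simp⟩
  | add x y hx hy =>
    obtain ⟨z, hz⟩ := hx
    obtain ⟨w, hw⟩ := hy
    exact ⟨z + w + x * y, by rw [map_add]; linear_combination hz + hw⟩
  | single a n =>
    obtain ⟨t, ht⟩ := Int.even_mul_pred_self n
    refine ⟨.single (a + a) t, ?_⟩
    rw [AddMonoidAlgebra.single_mul_single, pu_single, two_mul, nsmulAddMonoidHom_apply, two_nsmul,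
      ← AddMonoidAlgebra.single_add, ← AddMonoidAlgebra.single_add]
    congr 1
    linarith

lemma opar_mid {R : Type} [CommRing R] (m : ℕ) : ∀ G : ℕ → R, ∃ z v,
    ∑ i ∈ range (m + 1), G i * G (m - i) = 2 * z + v ∧ (v = 0 ∨ ∃ i, 2 * i = m ∧ v = G i * G i) := by
  induction m using Nat.twoStepInduction with
  | zero => exact fun G => ⟨0, _, by simp, .inr ⟨0, rfl, rfl⟩⟩
  | one => exact fun G => ⟨G 0 * G 1, 0, by simp [sum_range_succ]; ring, .inl rfl⟩
  | more m ih _ =>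
    intro G
    obtain ⟨z, v, e, h⟩ := ih fun i => G (i + 1)
    refine ⟨z + G 0 * G (m + 2), v, ?_, h.imp id fun ⟨i, a, b⟩ => ⟨i + 1, by omega, b⟩⟩
    rw [sum_range_succ, sum_range_succ', sum_congr rfl fun i hi => by
      rw [show m + 2 - (i + 1) = m - i + 1 by have := mem_range.1 hi; omega], e, Nat.sub_self,
      Nat.sub_zero]
    ring

lemma opar_conv {R : Type} [CommRing R] (P : R) (W G G' : ℕ → R) (n : ℕ)
    (h : ∀ k ≤ n, P * W k = P * ∑ i ∈ range (k + 1), G i * G' (k - i)) :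
    ∑ k ∈ range (n + 1), P * G k * W (n - k) =
      ∑ j ∈ range (n + 1), P * G' j * ∑ i ∈ range (n - j + 1), G i * G (n - j - i) := by
  have cm : ∀ (a b : PowerSeries R) k, PowerSeries.coeff k (a * b) =
      ∑ i ∈ range (k + 1), PowerSeries.coeff i a * PowerSeries.coeff (k - i) b := fun a b k => by
    rw [PowerSeries.coeff_mul, Nat.sum_antidiagonal_eq_sum_range_succ_mk]
  have e := congrArg (fun f => P * PowerSeries.coeff n f)
    (mul_left_comm (PowerSeries.mk G) (.mk G') (.mk G))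
  rw [mul_comm (PowerSeries.mk G')] at e
  simp only [cm, PowerSeries.coeff_mk] at e
  rw [mul_sum, mul_sum] at e
  simp only [mul_assoc]
  refine (sum_congr rfl fun k _ => ?_).trans e
  rw [mul_left_comm, h _ (Nat.sub_le _ _), mul_left_comm]

theorem p_PAR (hhSML : Hy.S_SML) :
    S_PAR := by
  intro c n K hn
  obtain ⟨q0, H⟩ := hhSML c (n + 1) (2 * c * (c + n * K * c + n * K ^ 2) + 1) 3
  refine ⟨4 * c, q0 + 1, fun q A _ _ Λ P G G' hq B h hP g0 g1 g2 hW => ?_⟩
  have hR : _ * om A ^ _ ≤ q := H q _ (by omega) Nat.card_pos.ne' B.le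
  have R1 : 1 ≤ om A := Nat.one_le_two_pow
  have p1 := hP.sz
  have cv := opar_conv P Λ.W G G' n fun k hk => hP.eq fun ψ hψ => by
    simp only [hW ψ hψ k hk, map_sum, map_mul]
  generalize om A = R at *
  have sq : ∀ m, ∃ z v, ∑ i ∈ range (m + 1 + 1), G i * G (m + 1 - i) = 2 * z + v ∧
      sz v ≤ K * R * q ^ m := fun m => by
    obtain ⟨z, v, e, rfl | ⟨i, a, rfl⟩⟩ := opar_mid (m + 1) G
    · exact ⟨z, 0, e, by simp [sz]⟩
    · obtain ⟨w, hw⟩ := opar_sq (G i)
      exact ⟨z + w, _, by rw [e, hw]; ring, (sz_pu _ _).trans ((g1 i).trans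
        (Nat.mul_le_mul_left _ (Nat.pow_le_pow_right (by omega) (by omega))))⟩
  choose z v e1 e2 using sq
  obtain ⟨T, u1, u2, u3⟩ := h.pr
  by_contra hc
  obtain ⟨a1, a2⟩ := not_or.1 hc
  let B1 := {x ∈ T | ∃ a ∈ P.coeff.support.erase 0, (Λ.W n).coeff (x - a) ≠ 0}
  let B2 := fun k => {x ∈ T | ∃ a ∈ (P * G (k + 1)).coeff.support,
    (Λ.W (n - (k + 1))).coeff (x - a) ≠ 0}
  let V := ∑ j ∈ range n, P * G' j * v (n - j - 1)
  have b1 : q * #B1 ≤ R * (c * q ^ n) :=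
    (con_card _ T _ fun a ha => u3 n hn le_rfl a fun _ => ne_of_mem_erase ha).trans
      (Nat.mul_le_mul_right _ (card_erase_le.trans p1))
  have b2 : q * #((range (n - 1)).biUnion B2) ≤ n * (R * (K * R) * c * q ^ n) := by
    refine (Nat.mul_le_mul_left _ card_biUnion_le).trans ?_
    rw [mul_sum]
    refine (sum_le_card_nsmul _ _ _ fun k hk => ?_).trans
      (Nat.mul_le_mul_right _ ((card_range _).trans_le (Nat.sub_le _ _)))
    have k1 := mem_range.1 hk
    refine (con_card _ T _ fun a _ => u3 _ (by omega) (by omega) a fun e => by omega).trans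
      ((Nat.mul_le_mul_right _ ((sz_mul _ _).trans (Nat.mul_le_mul p1 (g1 _)))).trans_eq ?_)
    rw [← pow_sub_mul_pow q (by omega : k + 1 ≤ n)]
    ring
  have b3 : q * #V.coeff.support ≤ n * (R * (K * R) * (K * R) * q ^ n) := by
    refine (Nat.mul_le_mul_left _ (sz_sum _ _)).trans ?_
    rw [mul_sum]
    refine (sum_le_card_nsmul _ _ _ fun j hj => ?_).trans_eq (by rw [card_range, smul_eq_mul])
    have j1 := mem_range.1 hj
    refine (Nat.mul_le_mul_left _ ((sz_mul _ _).trans (Nat.mul_le_mul ((sz_mul _ _).trans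
      (Nat.mul_le_mul p1 (g2 j))) (e2 _)))).trans_eq ?_
    obtain ⟨m, rfl⟩ : ∃ m, n = j + m + 1 := ⟨n - j - 1, by omega⟩
    rw [show j + m + 1 - j - 1 = m by omega]
    ring
  obtain ⟨x, x0, x1⟩ := exists_mem_notMem_of_card_lt_card
    (s := {x ∈ (univ : Finset A) | (Λ.W n).coeff x ≠ 0 ∧ (P * G n).coeff x ≠ 0} ∪
      {x ∈ (univ : Finset A) | (Λ.W n).coeff x ≠ 0 ∧ (P * G' n).coeff x ≠ 0} ∪
      (B1 ∪ (range (n - 1)).biUnion B2 ∪ V.coeff.support)) (t := T) (by
      refine lt_of_not_ge fun a => ?_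
      have a3 := Nat.mul_le_mul_left (4 * c) (a.trans ((card_union_le _ _).trans (Nat.add_le_add
        (card_union_le _ _) ((card_union_le _ _).trans
          (Nat.add_le_add_right (card_union_le _ _) _)))))
      have a4 : q ^ n ≤ 2 * c * (#B1 + #((range (n - 1)).biUnion B2) + #V.coeff.support) := by
        rw [mul_add, mul_add] at a3
        linarith
      have r2 : R ≤ R ^ 3 := Nat.le_self_pow (by omega) R
      have r3 : R ^ 2 ≤ R ^ 3 := Nat.pow_le_pow_right R1 (by omega)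
      have a5 : q * q ^ n ≤ 2 * c * (c + n * K * c + n * K ^ 2) * R ^ 3 * q ^ n :=
        calc q * q ^ n ≤ 2 * c * (q * #B1 + q * #((range (n - 1)).biUnion B2) +
              q * #V.coeff.support) := (Nat.mul_le_mul_left q a4).trans_eq (by ring)
          _ ≤ 2 * c * ((c * R + n * K * c * R ^ 2 + n * K ^ 2 * R ^ 3) * q ^ n) :=
            Nat.mul_le_mul_left _ ((Nat.add_le_add (Nat.add_le_add b1 b2) b3).trans_eq (by ring))
          _ ≤ 2 * c * ((c * R ^ 3 + n * K * c * R ^ 3 + n * K ^ 2 * R ^ 3) * q ^ n) := by gcongr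
          _ = _ := by ring
      have a6 := Nat.le_of_mul_le_mul_right a5 (Nat.pow_pos (by omega))
      rw [add_mul] at hR
      omega)
  have w1 : (Λ.W n).coeff x ≠ 0 := by rw [u2 x x0]; exact one_ne_zero
  simp only [mem_union, not_or, mem_biUnion, not_exists, not_and, B1, B2, mem_filter, x0, mem_univ,
    true_and, not_not, Finsupp.mem_support_iff] at x1
  obtain ⟨⟨y1, y2⟩, ⟨x1, x2⟩, x3⟩ := x1
  have c1 : (P * Λ.W n).coeff x = 1 := by
    rw [Hy.coeff_mul, sum_eq_single 0 (fun a _ ha => ?_) (by simp), hP.c0, sub_zero, u2 x x0,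
      one_mul]
    by_cases e : P.coeff a = 0
    · rw [e, zero_mul]
    · rw [x1 a (mem_erase.2 ⟨ha, Finsupp.mem_support_iff.2 e⟩), mul_zero]
  have c2 : (∑ k ∈ range (n - 1), P * G (k + 1) * Λ.W (n - (k + 1))).coeff x = 0 := by
    rw [AddMonoidAlgebra.coeff_sum, Finsupp.finsetSum_apply]
    refine sum_eq_zero fun k hk => of_not_not fun e => ?_
    obtain ⟨a, e3, e4⟩ := mul_ne e
    exact e4 (x2 k hk a e3)
  have c3 : ∑ j ∈ range n, P * G' j * ∑ i ∈ range (n - j + 1), G i * G (n - j - i) =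
      2 • ∑ j ∈ range n, P * G' j * z (n - j - 1) + V := by
    rw [two_nsmul, ← sum_add_distrib, ← sum_add_distrib]
    refine sum_congr rfl fun j hj => ?_
    have := e1 (n - j - 1)
    rw [show n - j - 1 + 1 = n - j by have := mem_range.1 hj; omega] at this
    rw [this]
    ring
  rw [sum_range_succ, sum_range_succ, c3, show range n = range (n - 1 + 1) by congr 1; omega,
    sum_range_succ', Nat.sub_self, Λ.w0, sum_range_one, g0] at cv
  simp only [mul_one, Nat.sub_zero] at cv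
  have z1 := congrArg (fun y : ZA A => y.coeff x) cv
  simp only [two_nsmul, AddMonoidAlgebra.coeff_add, Finsupp.add_apply, c1, c2, y1 w1, y2 w1,
    x3] at z1
  omega

end

section

lemma olf2_en (hENE : Hy.S_ENE) {c q n : ℕ} {A : Type} [AddCommGroup A] [Fintype A]
    (Λ : LD q n A) (hB : Big A c q n 0) (hq : om A ≤ q) (h : GD Λ c) :
    av (fun ψ => nq q (2 * n) (Λ.L ψ)) ≤ (2 * n + 1) * (2 * c) := by
  have := hB.nt
  have q0 : (0 : ℝ) < q := Nat.cast_pos.2 ((Nat.two_pow_pos _).trans_le hq)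
  have k : ∀ j ≤ n, en (Λ.W j) / q ^ j ≤ 2 * c := fun j hj => by
    rw [div_le_iff₀ (by positivity)]
    refine (hENE A hB.cyc (Λ.W j) (c * q ^ j) (c * q ^ j / q) (by exact_mod_cast h.e0 j hj)
      (fun b hb => ?_) (by positivity)).trans ?_
    · rw [abs_of_nonneg (sum_nonneg fun a _ => by exact_mod_cast mul_nonneg (Λ.nn _ _) (Λ.nn _ _)),
        le_div_iff₀' q0]
      exact_mod_cast h.e1 j hj b hb
    · have : (om A : ℝ) * (c * q ^ j / q) ≤ q * (c * q ^ j / q) :=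
        mul_le_mul_of_nonneg_right (Nat.cast_le.2 hq) (by positivity)
      rw [mul_div_cancel₀ _ q0.ne'] at this
      linarith
  have e : av (fun ψ => nq q (2 * n) (Λ.L ψ)) = ∑ i ∈ range (2 * n + 1), en (Λ.W i) / q ^ i := by
    simp only [av, nq, en]
    rw [sum_comm, sum_div]
    refine sum_congr rfl fun i hi => ?_
    rw [div_right_comm, ← sum_div]
    simp only [Λ.coeff_L _ (Nat.lt_succ_iff.1 (mem_range.1 hi))]
  rw [e]
  refine (sum_le_card_nsmul _ _ (2 * c : ℝ) fun i hi => ?_).trans_eq (by simp)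
  rcases le_total i n with h1 | h1
  · exact k i h1
  have h2 := mem_range.1 hi
  obtain ⟨j, hj, rfl⟩ : ∃ j ≤ n, i = 2 * n - j := ⟨2 * n - i, by omega, by omega⟩
  refine Eq.trans_le ?_ (k j hj)
  have e1 : en (Λ.W (2 * n - j)) = (q ^ (n - j)) ^ 2 * en (Λ.W j) := by
    simp only [en, av]
    rw [← mul_div_assoc, mul_sum]
    refine congrArg (· / _) (sum_congr rfl fun ψ hψ => ?_)
    rw [Λ.fe ψ (Fa_ne hψ) j hj]
    simp [mul_pow]
  rw [e1, show 2 * n - j = (n - j) * 2 + j by omega, pow_add, pow_mul,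
    mul_div_mul_left _ _ (by positivity)]

theorem p_LF2 (hhENE : Hy.S_ENE) (hhKER : Hy.S_KER) (hhCAS : Hy.S_CAS) (hhMAH : Hy.S_MAH) :
    S_LF2 := by
  intro c n
  refine ⟨4 ^ (2 * n) * ((2 * n + 1) * (2 * c)) + 1, ?_⟩
  intro q A _ _ Λ hB hom hHD χ hχ M hM hM0 ⟨B, hL⟩
  have hom1 : 1 ≤ om A := Nat.one_le_two_pow
  have hq : 0 < q := by omega
  have hB0 : B.coeff 0 = 1 := by
    have := lft_c0 Λ χ
    rwa [hL, mul_coeff_zero, hM0, one_mul] at this
  obtain ⟨P', hP'⟩ := hM.of_mul (B := B) hM0 ⟨Λ.LZ, hL⟩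
  obtain ⟨P, hP⟩ := hM
  have tr : ∀ ψ ∈ Fa A, ∀ x y : ZA A, ev χ x = ev χ y → ev ψ x = ev ψ y := fun ψ hψ x y h => by
    have := ((hhKER A χ hχ).1 ψ hψ).1 (x - y) (by rw [map_sub, h, sub_self])
    rwa [map_sub, sub_eq_zero] at this
  have key : ∀ j, en (P.coeff j) ≤ 4 ^ (2 * n) * q ^ j * ((2 * n + 1) * (2 * c)) := by
    intro j
    refine le_trans ?_ (mul_le_mul_of_nonneg_left (olf2_en hhENE Λ hB hom hHD) (by positivity))
    unfold en av
    rw [← mul_div_assoc, mul_sum]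
    refine div_le_div_of_nonneg_right (sum_le_sum fun ψ hψ => ?_) (by positivity)
    have e1 : Λ.L ψ = P.map (ev ψ) * P'.map (ev ψ) := by
      rw [← Polynomial.map_mul]
      ext i
      rw [LD.L, coeff_map, coeff_map]
      refine tr ψ hψ _ _ ?_
      rw [← coeff_map, ← coeff_map, Polynomial.map_mul, hP, hP', ← hL, LD.L]
    have e2 : (P.map (ev ψ)).coeff 0 = 1 := by
      rw [coeff_map, tr ψ hψ _ 1 (by rw [← coeff_map, hP, hM0, map_one]), map_one]
    have e3 : (P'.map (ev ψ)).coeff 0 = 1 := by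
      rw [coeff_map, tr ψ hψ _ 1 (by rw [← coeff_map, hP', hB0, map_one]), map_one]
    have e4 : Λ.L ψ ≠ 0 := fun h => by simpa [h] using lft_c0 Λ ψ
    have e5 : (P.map (ev ψ)).natDegree ≤ 2 * n :=
      (natDegree_le_of_dvd ⟨_, e1⟩ e4).trans (lft_deg Λ ψ)
    have := (hhMAH _ _ _ (2 * n) (2 * n) q hq e1 e2 e3 e5 (lft_deg Λ ψ)).1 j
    rwa [coeff_map] at this
  choose y hy1 hy2 using hhCAS A hB.cyc
  refine ⟨fun j => if j = 0 then 1 else y (P.coeff j), if_pos rfl, fun j => ?_, fun j => ?_⟩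
  · beta_reduce
    split_ifs with h
    · rw [h, hM0, map_one]
    · rw [hy1 _ χ hχ, ← coeff_map, hP]
  · beta_reduce
    split_ifs with h
    · refine (sz_single 0 1).trans ?_
      exact Nat.mul_pos (Nat.mul_pos (Nat.succ_pos _) hom1) (pow_pos hq j)
    · have h1 := (hy2 (P.coeff j)).trans (mul_le_mul_of_nonneg_left (key j) (by positivity))
      have h2 : (om A : ℝ) * (4 ^ (2 * n) * q ^ j * ((2 * n + 1) * (2 * c))) ≤
          (4 ^ (2 * n) * ((2 * n + 1) * (2 * c)) + 1) * om A * q ^ j := by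
        have : (0 : ℝ) ≤ om A * q ^ j := by positivity
        nlinarith
      exact_mod_cast h1.trans h2

end

section

lemma ofeb_iff (q Z : ℂ) {d : ℕ} {M : ℂ[X]} (h : M.natDegree ≤ d) :
    (∀ i j, i + j = d → q ^ j * M.coeff i = Z * conj (M.coeff j)) ↔
      (reflect d M).comp (C q * X) = C Z * M.map conj := by
  simp only [Polynomial.ext_iff, comp_C_mul_X_coeff, coeff_reflect, coeff_C_mul, coeff_map]
  refine ⟨fun H j => ?_, fun H i j e => ?_⟩
  · rcases le_or_gt j d with hj | hj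
    · rw [revAt_le hj, mul_comm, H _ j (by omega)]
    · rw [revAt_eq_self_of_lt hj, coeff_eq_zero_of_natDegree_lt (h.trans_lt hj)]
      simp
  · rw [← H j, revAt_le (by omega), mul_comm, show d - j = i by omega]

theorem p_FEB (hhLB : Hy.S_LB) :
    S_FEB := by
  refine ⟨fun q n A _ _ Λ hq χ hχ => ?_, fun q D μ M B hq hD hM => ?_⟩
  · obtain ⟨h0, hd, -⟩ := hhLB q n A Λ hq χ hχ
    have hu : χ Λ.ω * conj (χ Λ.ω) = 1 := by
      rw [← AddChar.map_neg_eq_conj, ← AddChar.map_add_eq_mul]; simp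
    have ht : (Λ.L χ).coeff (2 * n) = q ^ n * χ Λ.ω := by
      have := Λ.fe χ hχ 0 (by omega)
      rw [Nat.sub_zero] at this
      rw [Λ.coeff_L χ le_rfl, this, Λ.w0]
      simp
    refine ⟨⟨h0, hd, fun i j e => ?_⟩, ht⟩
    rw [ht, Λ.coeff_L χ (by omega), Λ.coeff_L χ (by omega)]
    rcases le_or_gt j n with h | h
    · rw [show i = 2 * n - j by omega, Λ.fe χ hχ j h, ← mul_assoc, ← mul_assoc, ← pow_add,
        Nat.add_sub_cancel' h]
    · have h1 := Λ.fe χ hχ i (by omega)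
      rw [show 2 * n - i = j by omega] at h1
      rw [h1, map_mul, map_mul, map_pow, Complex.conj_conj, map_natCast,
        show j = n + (n - i) by omega, pow_add]
      linear_combination (-(q : ℂ) ^ n * q ^ (n - i) * ev χ (Λ.W i)) * hu
  · have b0 : B.coeff 0 = 1 := by simpa [hM.c0] using hD.c0
    have m0 : M ≠ 0 := fun e => by simpa [e] using hM.c0
    have n0 : B ≠ 0 := fun e => by simp [e] at b0
    have hd := hD.deg
    rw [natDegree_mul m0 n0, hM.deg] at hd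
    have hB : B.natDegree = D - μ := by omega
    have ht : (M * B).coeff D = M.coeff μ * B.coeff (D - μ) := by
      rw [← hB, ← hD.deg, ← hM.deg]
      exact leadingCoeff_mul M B
    have z0 : M.coeff μ ≠ 0 := by
      rw [← hM.deg]
      exact leadingCoeff_ne_zero.2 m0
    refine ⟨by omega, ⟨b0, hB, (ofeb_iff _ _ hB.le).2 ?_⟩, ht⟩
    have h1 := (ofeb_iff _ _ hD.deg.le).1 hD.eq
    rw [ht, ← hB, ← hd, reflect_mul _ _ hM.deg.le le_rfl, mul_comp,
      (ofeb_iff _ _ hM.deg.le).1 hM.eq, Polynomial.map_mul, C_mul, mul_mul_mul_comm] at h1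
    rw [← hB]
    exact mul_left_cancel₀ (mul_ne_zero (C_ne_zero.2 z0) (Polynomial.map_ne_zero m0)) h1

end

section

lemma ofer_dag (q : ℂ) (ρ : Multiset ℂ) (h : ∀ r ∈ ρ, r ≠ 0) :
    ∃ c, (reflect ρ.card ((ofR ρ).map (starRingEnd ℂ))).comp (C q * X) =
      C c * ofR (ρ.map fun r : ℂ => q / conj r) := by
  induction ρ using Multiset.induction_on with
  | empty => exact ⟨1, by simp [ofR]⟩
  | cons a ρ ih =>
    have h' := fun r hr => h r (Multiset.mem_cons_of_mem hr)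
    obtain ⟨c, hc⟩ := ih h'
    have ha : conj a ≠ 0 := (_root_.map_ne_zero _).2 (h a (Multiset.mem_cons_self _ _))
    have e (a : ℂ) (ρ : Multiset ℂ) : ofR (a ::ₘ ρ) = (1 - C a * X) * ofR ρ := by simp [ofR]
    have e1 : reflect 1 ((1 - C a * X : ℂ[X]).map (starRingEnd ℂ)) = X - C (conj a) := by
      simp [Polynomial.map_sub, Polynomial.map_mul, reflect_sub, reflect_C_mul, reflect_one]
    refine ⟨-conj a * c, ?_⟩
    rw [Multiset.map_cons, e, e, Multiset.card_cons, Polynomial.map_mul, add_comm,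
      reflect_mul _ _ (natDegree_map_le.trans (by compute_degree))
        (natDegree_map_le.trans (str_deg h').le), mul_comp, hc, e1]
    have e2 : C (conj a) * C (q / conj a) = C q := by
      rw [← map_mul, mul_div_cancel₀ _ ha]
    simp only [sub_comp, X_comp, C_comp, map_mul, map_neg, ← e2]
    ring

theorem p_FER :
    S_FER := by
  intro q ρ _ h0 h1
  obtain ⟨c, hc⟩ := ofer_dag q ρ h0
  rw [h1] at hc
  have h2 := fun i => congrArg (coeff · i) hc
  simp only [comp_C_mul_X_coeff, coeff_reflect, coeff_map, coeff_C_mul] at h2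
  have d0 : (ofR ρ).coeff 0 = 1 := by
    rw [coeff_zero_eq_eval_zero, ofR, eval_multiset_prod]
    simp
  have h3 := h2 0
  rw [d0, revAt_zero, pow_zero, mul_one, mul_one] at h3
  refine ⟨d0, str_deg h0, fun i j hij => ?_⟩
  have h4 := congrArg conj (h2 j)
  rw [revAt_le (by omega), (by omega : ρ.card - j = i), ← h3] at h4
  simpa [mul_comm] using h4

end

end Pool.Agent.P.MP_9344a7_nt.Od
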