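import Pool.Agent.P.MP_9344a7_nt.Od.Iface
import Pool.Agent.P.MP_9344a7_nt.Hy.M4

/-! Steps NSP, EQL, RDA, MTW, RDB. -/

set_option linter.unusedSectionVars false
set_option linter.unusedVariables false

namespace Pool.Agent.P.MP_9344a7_nt.Od

open Polynomial Finset
open Pool.Agent.P.MP_6f117a_ag (Place FF)
open Pool.Agent.P.MP_ab3ecb_nt.Inv (Dv deg SA LS)
open Pool.Agent.P.MP_9344a7_nt.R
open Pool.Agent.P.MP_9344a7_nt.Hy
open scoped Classical ComplexConjugate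

section

lemma onsp_key (hKER : Hy.S_KER) {q n μ ν K E : ℕ} {A : Type} [AddCommGroup A] [Fintype A]
    (Λ : LD q n A) {P : ZA A} (hP : Kp P) (hq : 0 < q) {χ : AddChar A ℂ} (hχ : χ ∈ Fa A)
    (par : ∀ G G' : ℕ → ZA A, G 0 = 1 → (∀ j, sz (G j) ≤ K * om A * q ^ j) →
      (∀ j, sz (G' j) ≤ K * om A * q ^ j) →
      (∀ ψ ∈ Fa A, ∀ k ≤ n,
        ev ψ (Λ.W k) = ∑ i ∈ range (k + 1), ev ψ (G i) * ev ψ (G' (k - i))) →
      q ^ n < E * #{x | (Λ.W n).coeff x ≠ 0 ∧ (P * G n).coeff x ≠ 0} ∨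
        q ^ n < E * #{x | (Λ.W n).coeff x ≠ 0 ∧ (P * G' n).coeff x ≠ 0})
    (cvr : ∀ (y w : ZA A) (μ : ℕ), 0 < μ → μ ≤ n → ev χ y * conj (ev χ y) = q ^ μ →
      sz y ≤ K * om A * q ^ μ → sz w ≤ K * om A * q ^ (n - μ) →
      E * #{x | (Λ.W n).coeff x ≠ 0 ∧ (P * (y * w)).coeff x ≠ 0} ≤ q ^ n)
    (lf : ∀ M : ℂ[X], Zc χ M → M.coeff 0 = 1 → M ∣ Λ.L χ → ∃ G : ℕ → ZA A, G 0 = 1 ∧
      (∀ j, ev χ (G j) = M.coeff j) ∧ ∀ j, sz (G j) ≤ K * om A * q ^ j)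
    {M B : ℂ[X]} (hL : Λ.L χ = M * B) (zM : Zc χ M) (zB : Zc χ B) (fM : Fe q μ M)
    (fB : Fe q ν B) (hs : μ + ν = 2 * n) (h0 : 0 < μ) (h1 : μ ≤ n)
    (top : M.coeff μ * B.coeff ν = q ^ n * χ Λ.ω) : False := by
  obtain ⟨G, g0, g1, g2⟩ := lf M zM fM.c0 ⟨B, hL⟩
  obtain ⟨G', -, g1', g2'⟩ := lf B zB fB.c0 ⟨M, hL.trans (mul_comm _ _)⟩
  have ker : ∀ x y : ZA A, ev χ x = ev χ y → ∀ ψ ∈ Fa A, ev ψ x = ev ψ y := fun x y h ψ hψ => by
    have := ((hKER A χ hχ).1 ψ hψ).1 (x - y) (by rw [map_sub, h, sub_self])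
    rwa [map_sub, sub_eq_zero] at this
  have hZ : M.coeff μ * conj (M.coeff μ) = q ^ μ := by
    rw [← fM.eq 0 μ (zero_add μ), fM.c0, mul_one]
  rcases par G G' g0 g2 g2' (fun ψ hψ k hk => by
    simp only [← map_mul, ← map_sum]
    refine ker _ _ ?_ ψ hψ
    rw [← Λ.coeff_L χ (by omega), hL, Polynomial.coeff_mul,
      Nat.sum_antidiagonal_eq_sum_range_succ_mk, map_sum]
    exact sum_congr rfl fun i _ => by rw [map_mul, g1, g1']) with h | h
  · rcases h1.eq_or_lt with rfl | h2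
    · have := cvr (G μ) (G 0) μ h0 le_rfl (by rw [g1, hZ]) (g2 μ) (by rw [Nat.sub_self]; exact g2 0)
      rw [g0, mul_one] at this
      exact absurd h (not_lt.2 this)
    · rw [hP.eq (ker (G n) 0 (by
        rw [g1, map_zero, coeff_eq_zero_of_natDegree_lt (fM.deg ▸ h2)])), mul_zero] at h
      simp at h
  · have hq' : ((q : ℂ) ^ n) ≠ 0 := pow_ne_zero _ (Nat.cast_ne_zero.2 hq.ne')
    have e1 := fB.eq n (n - μ) (by omega)
    have e2 : (q : ℂ) ^ n = q ^ μ * q ^ (n - μ) := by rw [← pow_add, Nat.add_sub_cancel' h1]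
    have := cvr (pu (-AddMonoidHom.id A) (G μ))
      (.single Λ.ω 1 * pu (-AddMonoidHom.id A) (G' (n - μ))) μ h0 h1
      (by rw [← conj_ev, g1, Complex.conj_conj, mul_comm, hZ]) ((sz_pu _ _).trans (g2 μ))
      ((sz_mul _ _).trans ((Nat.mul_le_mul (sz_single _ _) ((sz_pu _ _).trans (g2' _))).trans_eq
        (one_mul _)))
    rw [← hP.eq (ker (G' n) _ (by
      rw [map_mul, map_mul, ← conj_ev, ← conj_ev, g1, g1', g1', ev_single]
      apply mul_left_cancel₀ hq'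
      linear_combination (B.coeff n) * e2 + q ^ μ * e1 - B.coeff ν * conj (B.coeff (n - μ)) * hZ +
        conj (M.coeff μ) * conj (B.coeff (n - μ)) * top))] at this
    exact absurd h (not_lt.2 this)

theorem p_NSP (hhSML : Hy.S_SML) (hhKER : Hy.S_KER) (hPK2 : S_PK2) (hCVR : S_CVR) (hPAR : S_PAR) (hLF2 : S_LF2) (hFEB : S_FEB) :
    S_NSP := by
  intro c n e hn
  obtain ⟨K, hK⟩ := hLF2 c n
  obtain ⟨E, q1, hE⟩ := hPAR c n K hn
  obtain ⟨q2, h2⟩ := hCVR c n e K E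
  obtain ⟨q3, h3⟩ := hhSML c (n + 1) 1 1
  refine ⟨q1 + q2 + q3 + 1, fun q p A _ _ Λ hq big gd lo χ hχ M μ zM ⟨B, hL⟩ fM => ?_⟩
  obtain ⟨P, hP, -⟩ := hPK2 A big.cyc
  have hq0 : 0 < q := by omega
  have hom : om A ≤ q := by
    simpa [om] using h3 q (Nat.card A) (by omega) Nat.card_pos.ne' big.le
  have := big.nt
  obtain ⟨fL, top⟩ := hFEB.1 q n A Λ hq0 χ (Fa_ne hχ)
  have zB : Zc χ B := zM.of_mul fM.c0 ⟨Λ.LZ, hL⟩
  rw [hL] at fL top
  obtain ⟨a1, fB, a2⟩ := hFEB.2 q (2 * n) μ M B hq0 fL fM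
  rw [a2] at top
  by_contra hc
  rcases le_total μ n with h | h
  · exact onsp_key hhKER Λ hP hq0 hχ (fun G G' => hE q A Λ P G G' (by omega) big gd hP)
      (h2 q p A Λ P (by omega) big gd hP lo χ hχ) (hK q A Λ big hom gd χ hχ) hL zM zB fM fB
      (by omega) (by omega) h top
  · exact onsp_key hhKER Λ hP hq0 hχ (fun G G' => hE q A Λ P G G' (by omega) big gd hP)
      (h2 q p A Λ P (by omega) big gd hP lo χ hχ) (hK q A Λ big hom gd χ hχ)
      (hL.trans (mul_comm _ _)) zB zM fB fM (by omega) (by omega) (by omega)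
      ((mul_comm _ _).trans top)

end

section

lemma oeql_swap {A : Type} [AddCommGroup A] [Fintype A] {χ : AddChar A ℂ} {ρ ρ' : Multiset ℂ}
    {q : ℕ} (hw : (q : ℂ) ≠ 0) (h : ∀ t ∈ ρ, t ≠ 0) (h' : ∀ t ∈ ρ', t ≠ 0) (hM : Zc χ (ofR ρ))
    (hB : Prim χ (ofR ρ')) {r : ℂ} (hr : r ∈ ρ') (hr' : q / conj r ∈ ρ) :
    ∀ t ∈ ρ', q / conj t ∈ ρ := by
  have a (t : ℂ) (ht : t ∈ ρ') : (tw q (reflect ρ.card (ofR ρ))).eval t⁻¹ = 0 ↔
      q / conj t ∈ ρ := by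
    rw [eval_tw, _root_.map_eq_zero, str_rev (str_deg h).le
      ((_root_.map_ne_zero _).2 (mul_ne_zero hw (inv_ne_zero (h' t ht)))), str_eval h, inv_inv, map_mul,
      map_inv₀, Complex.conj_natCast, div_eq_mul_inv]
  intro t ht
  refine (a t ht).1 (eval_eq_zero_of_dvd_of_eval_eq_zero (hB.dvd _ (zc_iff.2 fun i => ?_) r⁻¹
    ((str_eval h' _).2 (by rwa [inv_inv])) ((a r hr).2 hr')) ((str_eval h' _).2 (by rwa [inv_inv])))
  obtain ⟨y, hy⟩ := zc_iff.1 hM (revAt ρ.card i)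
  exact ⟨pu (-AddMonoidHom.id A) y * q ^ i, by
    rw [coeff_tw, coeff_reflect, map_mul, map_pow, ← conj_ev, hy, map_natCast]⟩

theorem p_EQL (hhMIN : Hy.S_MIN) (hFER : S_FER) :
    S_EQL := by
  intro A _ _ χ hχ q D L L' hq hZ hZ' h0 h0' hd hd' hS hS' hns α hα hα'
  have hw : (q : ℂ) ≠ 0 := Nat.cast_ne_zero.2 hq.ne'
  have nz (β : ℂ) (h : L.eval β = 0) : β ≠ 0 := fun e => by
    rw [e, ← coeff_zero_eq_eval_zero, h0] at h
    exact one_ne_zero h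
  have hD : D ≠ 0 := fun e => by
    rw [eq_C_of_natDegree_eq_zero (hd.trans e), eval_C, h0] at hα
    exact one_ne_zero hα
  have mn (r : ℂ) (h : L.eval r⁻¹ = 0) (h' : L'.eval r⁻¹ = 0) : ∃ ρ : Multiset ℂ, r ∈ ρ ∧ ρ.Nodup ∧
      (∀ t ∈ ρ, t ≠ 0) ∧ Prim χ (ofR ρ) ∧ ofR ρ ∣ L ∧ ofR ρ ∣ L' := by
    have r0 : r ≠ 0 := fun e => nz _ h (by rw [e, inv_zero])
    have c : (reflect D L).coeff D = 1 := by simpa using h0
    have d := natDegree_eq_of_le_of_coeff_ne_zero (p := reflect D L)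
      (natDegree_le_iff_coeff_eq_zero.2 fun j hj => by
        rw [coeff_reflect, revAt_eq_self_of_lt hj, coeff_eq_zero_of_natDegree_lt (by omega)])
      (c ▸ one_ne_zero)
    obtain ⟨ρ, a1, a2, a3, a4⟩ := hhMIN A χ hχ r r0 (.of_aeval_monic_of_isIntegral_coeff
      (p := reflect D L) (by rw [Monic, leadingCoeff, d, c]) (by omega)
      (by rw [(str_rev hd.le r0).2 h]; exact isIntegral_zero) fun i => by
        obtain ⟨y, hy⟩ := zc_iff.1 hZ (revAt D i)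
        rw [coeff_reflect, ← hy]
        exact str_int y)
    have a5 := (str_eval a3 r⁻¹).2 (by rwa [inv_inv])
    exact ⟨ρ, a1, a2, a3, a4, a4.dvd L hZ _ a5 h, a4.dvd L' hZ' _ a5 h'⟩
  have iv (t : ℂ) : q / conj (q / conj t) = t := by
    rw [map_div₀, Complex.conj_natCast, Complex.conj_conj, div_div_cancel₀ hw]
  have eβ : (q : ℂ) / conj α⁻¹ = q * conj α := by rw [map_inv₀, div_inv_eq_mul]
  obtain ⟨ρ, a1, a2, a3, a4, a5, a6⟩ := mn α⁻¹ (by rwa [inv_inv]) (by rwa [inv_inv])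
  obtain ⟨ρ', b1, b2, b3, b4, b5, b6⟩ := mn (q / conj α⁻¹) (eβ ▸ hS α hα) (eβ ▸ hS' α hα')
  have h2 := oeql_swap hw b3 a3 b4.zc a4 a1 b1
  have h1 := oeql_swap hw a3 b3 a4.zc b4 b1 (by rwa [iv])
  have inj : Function.Injective fun r : ℂ => q / conj r :=
    Function.LeftInverse.injective (g := fun r : ℂ => q / conj r) iv
  have mp {σ σ' : Multiset ℂ} (n1 : σ.Nodup) (n2 : σ'.Nodup) (k1 : ∀ t ∈ σ, q / conj t ∈ σ')
      (k2 : ∀ t ∈ σ', q / conj t ∈ σ) : σ.map (fun r : ℂ => q / conj r) = σ' :=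
    (Multiset.Nodup.ext (n1.map inj) n2).2 fun t => by
      rw [Multiset.mem_map]
      exact ⟨fun ⟨a, ha, e⟩ => e ▸ k1 a ha, fun ht => ⟨_, k2 t ht, iv t⟩⟩
  have m1 := mp a2 b2 h2 h1
  have m2 := mp b2 a2 h1 h2
  have fin (τ : Multiset ℂ) (c1 : α⁻¹ ∈ τ) (c3 : ∀ t ∈ τ, t ≠ 0) (c4 : Zc χ (ofR τ))
      (c5 : ofR τ ∣ L) (c6 : ofR τ ∣ L') (m : τ.map (fun r : ℂ => q / conj r) = τ) : L = L' := by
    have f := hFER q τ hq c3 m
    have k := (hns _ _ c4 c5 f).resolve_left (Multiset.card_pos_iff_exists_mem.2 ⟨_, c1⟩).ne'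
    exact (eq_of_dvd c5 f.c0 h0 (by rw [f.deg, hd, k])).symm.trans
      (eq_of_dvd c6 f.c0 h0' (by rw [f.deg, hd', k]))
  by_cases hm : ∃ t ∈ ρ, t ∈ ρ'
  · obtain ⟨t, t1, t2⟩ := hm
    have e : ρ = ρ' := Multiset.eq_of_le_of_card_le ((Multiset.le_iff_subset a2).2 fun s hs => by
      simpa using (str_eval b3 s⁻¹).1 (eval_eq_zero_of_dvd_of_eval_eq_zero (a4.dvd _ b4.zc t⁻¹
        ((str_eval a3 _).2 (by rwa [inv_inv])) ((str_eval b3 _).2 (by rwa [inv_inv])))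
        ((str_eval a3 _).2 (by rwa [inv_inv])))) (by rw [← m1, Multiset.card_map])
    exact fin ρ a1 a3 a4.zc a5 a6 (m1.trans e.symm)
  have cp : IsCoprime (ofR ρ) (ofR ρ') :=
    (isCoprime_iff_aeval_ne_zero_of_isAlgClosed ℂ ℂ _ _).2 fun a => by
      rw [coe_aeval_eq_eval, Ne, Ne, str_eval a3, str_eval b3, ← not_and_or]
      exact fun h => hm ⟨_, h⟩
  exact fin (ρ + ρ') (Multiset.mem_add.2 (.inl a1))
    (fun t ht => (Multiset.mem_add.1 ht).elim (a3 t) (b3 t)) (str_add ρ ρ' ▸ a4.zc.mul b4.zc)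
    (str_add ρ ρ' ▸ cp.mul_dvd a5 b5) (str_add ρ ρ' ▸ cp.mul_dvd a6 b6)
    (by rw [Multiset.map_add, m1, m2, add_comm])

end

section

section aux

variable {A : Type} [AddCommGroup A] [Fintype A]

lemma orda_key {P W y : ZA A} (h0 : P.coeff 0 = 1) (e : P * W = P * y) {a : A}
    (ha : W.coeff a ≠ 0) (hb : ∀ b, P.coeff b ≠ 0 → b ≠ 0 → W.coeff (a + -b) = 0) :
    ∃ b, P.coeff b ≠ 0 ∧ y.coeff (a - b) ≠ 0 := by
  refine mul_ne ?_
  rw [← e, Hy.coeff_mul, sum_eq_single 0, h0, one_mul, sub_zero]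
  · exact ha
  · intro b _ hb0
    by_cases h : P.coeff b = 0
    · rw [h, zero_mul]
    · rw [sub_eq_add_neg, hb b h hb0, mul_zero]
  · exact fun h => (h (mem_univ _)).elim

lemma orda_coeff (P : ZA A) (b : A) : (pu (-AddMonoidHom.id A) P).coeff b = P.coeff (-b) := by
  have := coeff_pu (AddEquiv.neg A) P (-b)
  rwa [AddEquiv.neg_apply, neg_neg] at this

lemma orda_eq {P x y : ZA A} (h : Kp P) (e : ∀ ψ ∈ Fa A, ev ψ x = ev ψ y) :
    pu (-AddMonoidHom.id A) P * x = pu (-AddMonoidHom.id A) P * y := by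
  have i : ∀ z : ZA A, pu (-AddMonoidHom.id A) (pu (-AddMonoidHom.id A) z) = z := fun z => by
    ext b
    rw [orda_coeff, orda_coeff, neg_neg]
  have := congrArg (pu (-AddMonoidHom.id A)) (h.eq (x := pu (-AddMonoidHom.id A) x)
    (y := pu (-AddMonoidHom.id A) y) fun ψ hψ => by rw [← conj_ev, ← conj_ev, e ψ hψ])
  rwa [map_mul, map_mul, i, i] at this

lemma orda_div (hA : IsAddCyclic A) {l : ℕ} (hl : l.Prime) (h4 : l ≠ 2 ∨ 4 ∣ Nat.card A) {g w : A}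
    (hg : l • g = 0) (hw : 2 • g = l • w) : ∃ v, g = l • v := by
  rcases hl.eq_two_or_odd' with rfl | ⟨m, hm⟩
  · obtain ⟨z, hz⟩ := IsAddCyclic.exists_generator (α := A)
    obtain ⟨i, rfl⟩ := AddSubgroup.mem_zmultiples_iff.1 (hz g)
    rw [← natCast_zsmul, smul_smul, ← addOrderOf_dvd_iff_zsmul_eq_zero,
      addOrderOf_eq_card_of_forall_mem_zmultiples hz] at hg
    obtain ⟨k, hk⟩ := (Int.natCast_dvd_natCast.2 (h4.resolve_left fun h => h rfl)).trans hg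
    exact ⟨k • z, by rw [← natCast_zsmul, smul_smul, show i = (2 : ℕ) * k by omega]⟩
  · refine ⟨(m + 1) • w, ?_⟩
    rw [smul_comm, ← hw, smul_smul, show (m + 1) * 2 = l + 1 by omega, add_smul, hg, one_smul,
      zero_add]

end aux

theorem p_RDA (hhSML : Hy.S_SML) (hPK2 : S_PK2) :
    S_RDA := by
  intro c n E
  obtain ⟨q0, H⟩ := hhSML c (n + 1) (E * (2 * c)) 1
  refine ⟨q0 + 1, fun q A _ _ Λ hq hB hG l hl hd h4 i hi y hy hs => ?_⟩
  obtain ⟨P, hP, hg⟩ := hPK2 A hB.cyc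
  obtain ⟨g, hg0, hg⟩ := hg l hl hd
  have H1 := H q _ (by omega) Nat.card_pos.ne' hB.le
  rw [pow_one, ← om] at H1
  set Q := pu (-AddMonoidHom.id A) P with hQ
  set F := (P.coeff.support ∪ Q.coeff.support).erase 0 with hF
  have hFc : #F ≤ 2 * om A := by
    have h1 : #F ≤ sz P + sz Q := card_erase_le.trans (card_union_le _ _)
    have h2 : sz Q ≤ sz P := sz_pu _ _
    have h3 := hP.sz
    omega
  have hsub : ({a | (Λ.W i).coeff a ≠ 0 ∧ ¬ ∃ u, a = l • u} : Finset A) ⊆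
      F.biUnion fun b => {a | (Λ.W i).coeff a ≠ 0 ∧ (Λ.W i).coeff (a + -b) ≠ 0} := by
    intro a ha
    obtain ⟨ha, hn⟩ := (mem_filter.1 ha).2
    by_contra hc
    have hz : ∀ b ∈ P.coeff.support ∪ Q.coeff.support, b ≠ 0 → (Λ.W i).coeff (a + -b) = 0 :=
      fun b hb hb0 => by
        by_contra e
        exact hc (mem_biUnion.2 ⟨b, mem_erase.2 ⟨hb0, hb⟩, mem_filter.2 ⟨mem_univ _, ha, e⟩⟩)
    obtain ⟨b, hb, e⟩ := orda_key hP.c0 (hP.eq hy) ha fun b hb =>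
      hz b (mem_union_left _ (Finsupp.mem_support_iff.2 hb))
    obtain ⟨b', hb', e'⟩ := orda_key (P := Q) (by rw [hQ, orda_coeff, neg_zero, hP.c0])
      (orda_eq hP hy) ha fun b hb => hz b (mem_union_right _ (Finsupp.mem_support_iff.2 hb))
    rw [hQ, orda_coeff] at hb'
    obtain ⟨u, hu⟩ := hs _ e
    obtain ⟨u', hu'⟩ := hs _ e'
    obtain ⟨v, hv | hv⟩ := hg b hb
    · exact hn ⟨u + v, by rw [smul_add, ← hu, ← hv, sub_add_cancel]⟩
    obtain ⟨v', hv' | hv'⟩ := hg _ hb'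
    · exact hn ⟨u' - v', by rw [smul_sub, ← hu', ← hv', sub_neg_eq_add, sub_add_cancel]⟩
    obtain ⟨t, ht⟩ := orda_div hB.cyc hl h4 hg0 (w := u' - v' - u - v) (by
      rw [smul_sub, smul_sub, smul_sub, ← hu, ← hu', ← sub_eq_iff_eq_add'.2 hv,
        ← sub_eq_iff_eq_add'.2 hv', two_smul]
      abel)
    exact hn ⟨u + (t + v), by rw [smul_add, smul_add, ← hu, ← ht, ← hv, sub_add_cancel]⟩
  have h1 : q * #{a | (Λ.W i).coeff a ≠ 0 ∧ ¬ ∃ u, a = l • u} ≤ #F * (c * q ^ i) := by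
    refine (Nat.mul_le_mul_left q ((card_le_card hsub).trans card_biUnion_le)).trans ?_
    rw [mul_sum, ← smul_eq_mul]
    exact sum_le_card_nsmul _ _ _ fun b hb => hG.pair hi (neg_ne_zero.2 (mem_erase.1 hb).1)
  refine Nat.le_of_mul_le_mul_left ?_ (show 0 < q by omega)
  calc q * (E * #{a | (Λ.W i).coeff a ≠ 0 ∧ ¬ ∃ u, a = l • u})
      = E * (q * #{a | (Λ.W i).coeff a ≠ 0 ∧ ¬ ∃ u, a = l • u}) := by ring
    _ ≤ E * (2 * om A * (c * q ^ i)) :=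
      Nat.mul_le_mul_left _ (h1.trans (Nat.mul_le_mul_right _ hFc))
    _ = E * (2 * c) * om A * q ^ i := by ring
    _ ≤ q * q ^ i := Nat.mul_le_mul_right _ H1

end

section

lemma omtw_per {A : Type} [AddCommGroup A] [Fintype A] {p : A → ℤ} {d : A} {u v : ℤ} (hu : 0 < u)
    (hv : 0 < v) (h0 : p 0 ≠ 0) (h : ∀ b, p b ≠ 0 → p b * u = p (b - d) * v) (b : A) :
    p (b - d) = p b := by
  have it : ∀ b, p b ≠ 0 → ∀ k : ℕ, p (b - k • d) * v ^ k = p b * u ^ k := fun b hb k => by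
    induction k with
    | zero => simp
    | succ k ih =>
      have := h (b - k • d) (left_ne_zero_of_mul (ih ▸ mul_ne_zero hb (pow_pos hu k).ne'))
      rw [succ_nsmul, ← sub_sub]
      linear_combination u * ih - v ^ k * this
  obtain ⟨M, hM⟩ := Nat.exists_eq_succ_of_ne_zero (Fintype.card_ne_zero (α := A))
  have hd : (M + 1) • d = 0 := by rw [← M.succ_eq_add_one, ← hM, card_nsmul_eq_zero]
  have e : v = u := by
    have := it 0 h0 (M + 1)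
    rw [hd, sub_zero] at this
    exact (pow_left_inj₀ hv.le hu.le M.succ_ne_zero).1 (mul_left_cancel₀ h0 this)
  subst e
  by_cases hb : p b = 0
  · by_contra hn
    have := mul_right_cancel₀ (pow_pos hu M).ne' (it _ (hb ▸ hn) M)
    rw [sub_sub, ← succ_nsmul', hd, sub_zero] at this
    exact hn this.symm
  · exact (mul_right_cancel₀ hu.ne' (h b hb)).symm

theorem p_MTW (hhAV : Hy.S_AV) (hPK2 : S_PK2) :
    S_MTW := by
  intro A _ _ hc
  obtain ⟨P, hP, -⟩ := hPK2 A hc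
  obtain ⟨ψ, hψ⟩ := (hhAV A hc).1
  obtain ⟨F, f1, f2⟩ : ∃ F : Finset A, #F ≤ om A ^ 2 ∧
      ∀ b c, P.coeff b ≠ 0 → P.coeff c ≠ 0 → b - c ∈ F :=
    ⟨image₂ (· - ·) P.coeff.support P.coeff.support,
      (card_image₂_le _ _ _).trans (sq (om A) ▸ Nat.mul_le_mul hP.sz hP.sz),
      fun b c hb hc => mem_image₂_of_mem (Finsupp.mem_support_iff.2 hb)
        (Finsupp.mem_support_iff.2 hc)⟩
  refine ⟨F, f1, fun x y hx hy e a ha => ?_⟩
  by_contra! H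
  obtain ⟨h1, h2, h3⟩ := H
  have p0 : P.coeff 0 ≠ 0 := by simp [hP.c0]
  have k : ∀ b, P.coeff b ≠ 0 →
      P.coeff b * x.coeff a = ∑ c, P.coeff c * y.coeff (a + (b - c)) := fun b hb => by
    have := congrArg (fun z : ZA A => z.coeff (a + b)) (hP.eq e)
    simp only [Hy.coeff_mul, add_sub_assoc] at this
    rw [← this, sum_eq_single b (fun c _ hc => ?_) (by simp), sub_self, add_zero]
    by_cases z : P.coeff c = 0
    · rw [z, zero_mul]
    · rw [h2 _ (f2 b c hb z) (sub_ne_zero.2 hc.symm), mul_zero]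
  obtain ⟨c, -, hc⟩ := exists_ne_zero_of_sum_ne_zero (k 0 p0 ▸ mul_ne_zero p0 ha)
  have d1 := f2 0 c p0 (left_ne_zero_of_mul hc)
  have d2 := right_ne_zero_of_mul hc
  generalize 0 - c = d at d1 d2
  have per := omtw_per (d := d) ((hx a).lt_of_ne ha.symm) ((hy _).lt_of_ne d2.symm) p0
    fun b hb => by
      rw [k b hb, sum_eq_single (b - d) (fun c _ hc => ?_) (by simp), sub_sub_cancel]
      by_cases z : P.coeff c = 0
      · rw [z, zero_mul]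
      · rw [h3 d d1 _ (f2 b c hb z) (fun q => hc (by rw [q, sub_sub_cancel])) d2, mul_zero]
  have q : AddMonoidAlgebra.single d 1 * P = P := by
    ext b
    rw [Hy.coeff_single_mul, one_mul, per]
  have r := congrArg (ev ψ) q
  rw [map_mul, ev_single, mul_eq_right₀ (hP.ne ψ hψ), Int.cast_one, one_mul,
    ← ψ.map_zero_eq_one] at r
  rw [mem_Fa.1 hψ r, add_zero] at d2
  exact d2 h1

end

section

section
variable {A A' : Type} [AddCommGroup A] [Fintype A] [AddCommGroup A'] [Fintype A']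

lemma ordb_coeff (j : A' →+ A) (x : ZA A') (b : A) :
    (pu j x).coeff b = ∑ u, if j u = b then x.coeff u else 0 := by
  conv_lhs => rw [← sum_single x]
  simp [Finsupp.finsetSum_apply, Finsupp.single_apply]

lemma ordb_sup {j : A' →+ A} {x : ZA A'} {b : A} (h : (pu j x).coeff b ≠ 0) :
    ∃ u, j u = b ∧ x.coeff u ≠ 0 := by
  rw [ordb_coeff] at h
  obtain ⟨u, -, e⟩ := exists_ne_zero_of_sum_ne_zero h
  by_cases hu : j u = b
  · exact ⟨u, hu, by rwa [if_pos hu] at e⟩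
  · exact absurd (if_neg hu) e

lemma ordb_fib {j : A' →+ A} (hk : Nat.card j.ker ≤ 2) (d : A) : #{v | j v = d} ≤ 2 := by
  rcases ({v | j v = d} : Finset A').eq_empty_or_nonempty with e | ⟨v0, h0⟩
  · simp [e]
  · refine le_trans ?_ hk
    rw [← Nat.card_eq_finsetCard]
    have h1 : j v0 = d := (mem_filter.1 h0).2
    refine Nat.card_le_card_of_injective (fun v => ⟨v.1 - v0, ?_⟩) fun v w e => ?_
    · rw [AddMonoidHom.mem_ker, map_sub, h1, (mem_filter.1 v.2).2, sub_self]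
    · exact Subtype.ext (sub_left_injective (congrArg Subtype.val e))

lemma ordb_un {ι B : Type} (s : Finset ι) (t : ι → Finset B) (q M N : ℕ) (hs : #s ≤ N)
    (h : ∀ i ∈ s, q * #(t i) ≤ M) : q * #(s.biUnion t) ≤ N * M := by
  refine (Nat.mul_le_mul_left q card_biUnion_le).trans ?_
  rw [mul_sum]
  exact (sum_le_card_nsmul _ _ M h).trans (Nat.mul_le_mul_right M hs)

lemma ordb_alt {q n c i : ℕ} {Λ : LD q n A'} (h : GD Λ c) (hi : i ≤ n) {j : A' →+ A}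
    (hk : Nat.card j.ker ≤ 2) {b b' : A} (hb : b ≠ b') :
    q * #{a | (pu j (Λ.W i)).coeff (a + b) ≠ 0 ∧ (pu j (Λ.W i)).coeff (a + b') ≠ 0} ≤
      2 * (c * q ^ i) := by
  refine le_trans (Nat.mul_le_mul_left q (card_le_card ?_)) (ordb_un {v | j v = b' - b}
    (fun δ => ({u | (Λ.W i).coeff u ≠ 0 ∧ (Λ.W i).coeff (u + δ) ≠ 0} : Finset A').image
      fun u => j u - b) q _ 2 (ordb_fib hk _) fun δ hδ => ?_)
  · intro a ha
    obtain ⟨u, e, hu⟩ := ordb_sup (mem_filter.1 ha).2.1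
    obtain ⟨v, e', hv⟩ := ordb_sup (mem_filter.1 ha).2.2
    refine mem_biUnion.2 ⟨v - u, mem_filter.2 ⟨mem_univ _, ?_⟩, mem_image.2
      ⟨u, mem_filter.2 ⟨mem_univ _, hu, by rwa [add_sub_cancel]⟩, by rw [e, add_sub_cancel_right]⟩⟩
    rw [map_sub, e, e', add_sub_add_left_eq_sub]
  · refine (Nat.mul_le_mul_left q card_image_le).trans (h.pair hi fun e => hb ?_)
    have := (mem_filter.1 hδ).2
    rw [e, map_zero] at this
    exact (sub_eq_zero.1 this.symm).symm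

end

theorem p_RDB (hhSML : Hy.S_SML) (hMTW : S_MTW) :
    S_RDB := by
  intro c n E
  obtain ⟨q0, h0⟩ := hhSML c (n + 1) (E * (3 * c)) 4
  refine ⟨q0 + 1, fun q A A' _ _ _ _ Λ Λ' j hq hB h h' hk i hi he => ?_⟩
  have hs : E * (3 * c) * om A ^ 4 ≤ q := h0 q _ (by omega) Nat.card_pos.ne' hB.le
  obtain ⟨F, hF, hM⟩ := hMTW A hB.cyc
  have nn : ∀ a, 0 ≤ (pu j (Λ'.W i)).coeff a := fun a => by
    rw [ordb_coeff]
    exact sum_nonneg fun u _ => ite_nonneg (Λ'.nn i u) le_rfl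
  have h1 := ordb_un {b ∈ F | b ≠ 0}
    (fun b => ({a | (Λ.W i).coeff a ≠ 0 ∧ (Λ.W i).coeff (a + b) ≠ 0} : Finset A)) q _ _
    ((card_filter_le _ _).trans hF) fun b hb => h.pair hi (mem_filter.1 hb).2
  have h2 := ordb_un {b ∈ F ×ˢ F | b.1 ≠ b.2}
    (fun b => ({a | (pu j (Λ'.W i)).coeff (a + b.1) ≠ 0 ∧
      (pu j (Λ'.W i)).coeff (a + b.2) ≠ 0} : Finset A)) q _ (om A ^ 2 * om A ^ 2)
    ((card_filter_le _ _).trans ((card_product F F).trans_le (Nat.mul_le_mul hF hF)))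
    fun b hb => ordb_alt h' hi hk (mem_filter.1 hb).2
  have h3 := (card_le_card (s := {a | (Λ.W i).coeff a ≠ 0 ∧ a ∉ j.range}) fun a ha => by
    obtain ⟨-, a1, a2⟩ := mem_filter.1 ha
    rcases hM _ _ (Λ.nn i) nn he a a1 with e | ⟨b, hb, b0, e⟩ | ⟨b, hb, b', hb', b0, e⟩
    · obtain ⟨u, e, -⟩ := ordb_sup e
      exact absurd ⟨u, e⟩ a2
    · exact mem_union_left _ (mem_biUnion.2 ⟨b, mem_filter.2 ⟨hb, b0⟩,
        mem_filter.2 ⟨mem_univ _, a1, e⟩⟩)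
    · exact mem_union_right _ (mem_biUnion.2 ⟨(b, b'), mem_filter.2 ⟨mk_mem_product hb hb', b0⟩,
        mem_filter.2 ⟨mem_univ _, e⟩⟩)).trans (card_union_le
      (({b ∈ F | b ≠ 0} : Finset A).biUnion fun b =>
        ({a | (Λ.W i).coeff a ≠ 0 ∧ (Λ.W i).coeff (a + b) ≠ 0} : Finset A))
      (({b ∈ F ×ˢ F | b.1 ≠ b.2} : Finset (A × A)).biUnion fun b =>
        ({a | (pu j (Λ'.W i)).coeff (a + b.1) ≠ 0 ∧
          (pu j (Λ'.W i)).coeff (a + b.2) ≠ 0} : Finset A)))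
  have h4 : om A ^ 2 ≤ om A ^ 4 := Nat.pow_le_pow_right (Nat.two_pow_pos _) (by norm_num)
  have h5 := Nat.mul_le_mul_left q h3
  rw [mul_add] at h5
  have h6 := (h5.trans (add_le_add h1 h2)).trans
    (add_le_add_left (Nat.mul_le_mul_right _ h4) _)
  refine Nat.le_of_mul_le_mul_left ?_ (show 0 < q by omega)
  calc _ = E * (q * #{a | (Λ.W i).coeff a ≠ 0 ∧ a ∉ j.range}) := by ring
    _ ≤ E * _ := Nat.mul_le_mul_left E h6
    _ = E * (3 * c) * om A ^ 4 * q ^ i := by ring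
    _ ≤ _ := Nat.mul_le_mul_right _ hs

end

end Pool.Agent.P.MP_9344a7_nt.Od
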