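import Pool.Agent.P.MP_9344a7_nt.Od.Iface
import Pool.Agent.P.MP_9344a7_nt.Hy.M8

/-! Steps NPT, RD3, RED, ADD, PW, G01. -/

set_option linter.unusedSectionVars false
set_option linter.unusedVariables false

namespace Pool.Agent.P.MP_9344a7_nt.Od

open Polynomial Finset
open Pool.Agent.P.MP_6f117a_ag (Place FF)
open Pool.Agent.P.MP_ab3ecb_nt.Inv (Dv deg SA LS)
open Pool.Agent.P.MP_9344a7_nt.R
open Pool.Agent.P.MP_9344a7_nt.Hy
open scoped Classical ComplexConjugate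

section

lemma onpt_bd {a s : ℕ → ℂ} {x : ℝ} (hx : 0 < x) (h0 : a 0 = 1) (h : Newt a s)
    (hs : ∀ m, m ≠ 0 → ‖s m‖ ≤ 2 * x ^ m) (j : ℕ) : ‖a j‖ ≤ (2 * x) ^ j := by
  induction j using Nat.strong_induction_on with
  | _ j ih =>
    rcases Nat.eq_zero_or_pos j with rfl | hj
    · simp [h0]
    have h1 : (j : ℝ) * ‖a j‖ ≤ j * (2 * x) ^ j := by
      have e := congrArg norm (h j)
      rw [norm_mul, Complex.norm_natCast] at e
      rw [e]
      refine (norm_sum_le _ _).trans ((sum_le_card_nsmul _ _ ((2 * x) ^ j) fun i hi => ?_).trans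
        (by simp))
      obtain ⟨d, rfl⟩ := Nat.exists_eq_add_of_lt (mem_range.1 hi)
      rw [norm_mul, show i + d + 1 - i = d + 1 by omega]
      refine (mul_le_mul (hs _ d.succ_ne_zero) (ih i (by omega)) (norm_nonneg _)
        (by positivity)).trans ?_
      have : (1 : ℝ) ≤ 2 ^ d := one_le_pow₀ one_le_two
      calc 2 * x ^ (d + 1) * (2 * x) ^ i = 1 * (2 * x ^ (d + 1) * (2 * x) ^ i) := by ring
        _ ≤ 2 ^ d * (2 * x ^ (d + 1) * (2 * x) ^ i) := by gcongr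
        _ = _ := by ring
    exact le_of_mul_le_mul_left h1 (by exact_mod_cast hj)

lemma onpt_step {a a' s s' : ℕ → ℂ} {x η K : ℝ} {m : ℕ} (hx : 0 < x) (hη : 0 ≤ η) (hK : 0 ≤ K)
    (h0 : a 0 = 1) (h0' : a' 0 = 1) (h : Newt a s) (h' : Newt a' s')
    (hs : ∀ m, m ≠ 0 → ‖s m‖ ≤ 2 * x ^ m) (hs' : ∀ m, m ≠ 0 → ‖s' m‖ ≤ 2 * x ^ m)
    (ha : ∀ j ≤ m, ‖a j - a' j‖ ≤ η * x ^ j)
    (hd : ∀ i, i ≠ 0 → i ≤ m → ‖s i - s' i‖ ≤ K * η * x ^ i) :
    ‖(m + 1 : ℂ) * (a (m + 1) - a' (m + 1)) - (s (m + 1) - s' (m + 1))‖ ≤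
      m * (K * 2 ^ m + 2) * η * x ^ (m + 1) := by
  have e : (m + 1 : ℂ) * (a (m + 1) - a' (m + 1)) - (s (m + 1) - s' (m + 1)) = ∑ j ∈ range m,
      ((s (m - j) - s' (m - j)) * a (j + 1) + s' (m - j) * (a (j + 1) - a' (j + 1))) := by
    have e1 := h (m + 1)
    have e2 := h' (m + 1)
    rw [sum_range_succ'] at e1 e2
    simp only [Nat.add_sub_add_right, Nat.sub_zero, h0, h0', mul_one, Nat.cast_add,
      Nat.cast_one] at e1 e2
    rw [mul_sub, e1, e2, add_sub_add_comm, add_sub_cancel_right, ← sum_sub_distrib]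
    exact sum_congr rfl fun j _ => by ring
  rw [e]
  refine (norm_sum_le _ _).trans ((sum_le_card_nsmul _ _ ((K * 2 ^ m + 2) * η * x ^ (m + 1))
    fun j hj => ?_).trans (by simp [mul_assoc]))
  obtain ⟨d, rfl⟩ := Nat.exists_eq_add_of_lt (mem_range.1 hj)
  rw [show j + d + 1 - j = d + 1 by omega]
  refine (norm_add_le _ _).trans ?_
  rw [norm_mul, norm_mul]
  have b1 := mul_le_mul (hd (d + 1) d.succ_ne_zero (by omega)) (onpt_bd hx h0 h hs (j + 1))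
    (norm_nonneg _) (by positivity)
  have b2 := mul_le_mul (hs' (d + 1) d.succ_ne_zero) (ha (j + 1) (by omega)) (norm_nonneg _)
    (by positivity)
  have b3 : (1 : ℝ) ≤ 2 ^ d := one_le_pow₀ one_le_two
  have b4 : 1 * (K * η * x ^ (d + 1) * (2 * x) ^ (j + 1)) ≤
      2 ^ d * (K * η * x ^ (d + 1) * (2 * x) ^ (j + 1)) := by gcongr
  refine (add_le_add (b1.trans ((one_mul _).symm.trans_le b4)) b2).trans_eq ?_
  ring

lemma onpt_cl (n : ℕ) : ∃ K : ℝ, 0 < K ∧ ∀ (a a' s s' : ℕ → ℂ) (x η : ℝ), 0 < x → 0 ≤ η →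
    a 0 = 1 → a' 0 = 1 → Newt a s → Newt a' s' → (∀ m, m ≠ 0 → ‖s m‖ ≤ 2 * x ^ m) →
    (∀ m, m ≠ 0 → ‖s' m‖ ≤ 2 * x ^ m) → (∀ j ≤ n, ‖a j - a' j‖ ≤ η * x ^ j) →
    ∀ i, i ≠ 0 → i ≤ n → ‖s i - s' i‖ ≤ K * η * x ^ i := by
  induction n with
  | zero => exact ⟨1, one_pos, fun _ _ _ _ _ _ _ _ _ _ _ _ _ _ _ i h1 h2 => by omega⟩
  | succ n ih =>
    obtain ⟨K, hK, H⟩ := ih
    refine ⟨K + (n * (K * 2 ^ n + 2) + (n + 1)), by positivity,
      fun a a' s s' x η hx hη h0 h0' h h' hs hs' ha i h1 h2 => ?_⟩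
    have ha' : ∀ j ≤ n, ‖a j - a' j‖ ≤ η * x ^ j := fun j hj => ha j (by omega)
    have hd := H a a' s s' x η hx hη h0 h0' h h' hs hs' ha'
    have p0 : 0 ≤ η * x ^ i := by positivity
    rcases h2.eq_or_lt with rfl | h2
    · have b1 := onpt_step hx hη hK.le h0 h0' h h' hs hs' ha' hd
      have b2 := norm_sub_norm_le (s (n + 1) - s' (n + 1)) ((n + 1 : ℂ) * (a (n + 1) - a' (n + 1)))
      have b3 : ‖(n + 1 : ℂ)‖ = n + 1 := by exact_mod_cast Complex.norm_natCast (n + 1)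
      rw [norm_sub_rev] at b1
      rw [norm_mul, b3] at b2
      have b4 := mul_le_mul_of_nonneg_left (ha _ le_rfl) (show (0 : ℝ) ≤ n + 1 by positivity)
      nlinarith [mul_nonneg hK.le p0]
    · have : 0 ≤ (n * (K * 2 ^ n + 2) + (n + 1)) * (η * x ^ i) := by positivity
      nlinarith [hd i h1 (by omega)]

theorem p_NPT :
    S_NPT := by
  intro n
  obtain ⟨K, hK, H⟩ := onpt_cl n
  refine ⟨n * (K * 2 ^ n + 2) + 1, by positivity,
    fun a a' s s' x η hx hη h0 h0' h h' hs hs' ha => ⟨onpt_bd hx h0 h hs, ?_⟩⟩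
  have b1 := onpt_step hx hη hK.le h0 h0' h h' hs hs' ha
    (H a a' s s' x η hx hη h0 h0' h h' hs hs' ha)
  have b2 := norm_sub_norm_le ((n + 1 : ℂ) * (a (n + 1) - a' (n + 1))) (s (n + 1) - s' (n + 1))
  have b3 : ‖(n + 1 : ℂ)‖ = n + 1 := by exact_mod_cast Complex.norm_natCast (n + 1)
  rw [norm_mul, b3] at b2
  have p0 : 0 ≤ η * x ^ (n + 1) := by positivity
  nlinarith [norm_sub_le (s (n + 1)) (s' (n + 1))]

end

section

lemma ord3_diff {A : Type} [AddCommGroup A] [Fintype A] (ε : AddChar A ℂ) (W : ZA A)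
    (h : ∀ a, 0 ≤ W.coeff a) (U η y : ℝ) (hη : 0 ≤ η) (hy : 0 ≤ y)
    (hU : ∑ a, ((W.coeff a : ℤ) : ℝ) ^ 2 ≤ U)
    (hX : 4 * (#{a | W.coeff a ≠ 0 ∧ ε a ≠ 1} * U) ≤ (η * y) ^ 2) :
    ‖ev ε W - ev 0 W‖ ≤ η * y := by
  have h1 : ‖ev ε W - ev 0 W‖ ≤
      2 * ∑ a ∈ univ.filter (fun a => W.coeff a ≠ 0 ∧ ε a ≠ 1), ((W.coeff a : ℤ) : ℝ) := by
    rw [ev_eq, ev_eq, ← sum_sub_distrib, sum_filter, mul_sum]
    refine (norm_sum_le _ _).trans (sum_le_sum fun a _ => ?_)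
    split_ifs with e
    · have h0 : (0 : ℝ) ≤ ((W.coeff a : ℤ) : ℝ) := by exact_mod_cast h a
      rw [← mul_sub, norm_mul, Complex.norm_intCast, abs_of_nonneg h0, mul_comm]
      refine mul_le_mul_of_nonneg_right ((norm_sub_le _ _).trans ?_) h0
      rw [AddChar.norm_apply, AddChar.norm_apply]; norm_num
    · rcases not_and_or.1 e with e | e
      · simp [not_not.1 e]
      · simp [not_not.1 e]
  have h2 := sq_sum_le_card_mul_sum_sq (s := univ.filter (fun a => W.coeff a ≠ 0 ∧ ε a ≠ 1))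
    (f := fun a => ((W.coeff a : ℤ) : ℝ))
  have h3 : ∑ a ∈ univ.filter (fun a => W.coeff a ≠ 0 ∧ ε a ≠ 1), ((W.coeff a : ℤ) : ℝ) ^ 2 ≤ U :=
    (sum_le_sum_of_subset_of_nonneg (filter_subset _ _) fun _ _ _ => sq_nonneg _).trans hU
  have h4 := mul_le_mul_of_nonneg_left h3
    (Nat.cast_nonneg (α := ℝ) #{a | W.coeff a ≠ 0 ∧ ε a ≠ 1})
  refine h1.trans (le_of_sq_le_sq ?_ (mul_nonneg hη hy))
  rw [mul_pow]
  linarith

theorem p_RD3 (hNPT : S_NPT) :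
    S_RD3 := by
  intro c n hn
  obtain ⟨K, hK, H⟩ := hNPT n
  obtain ⟨η, hη⟩ : ∃ η : ℝ, η = 1 / (5 * K) := ⟨_, rfl⟩
  have η0 : 0 < η := by rw [hη]; positivity
  have Kη : K * η = 1 / 5 := by rw [hη]; field_simp
  obtain ⟨E, hE⟩ := exists_nat_ge (4 * c / η ^ 2)
  rw [div_le_iff₀ (by positivity)] at hE
  refine ⟨E, 15 * 2 ^ n, fun q A _ _ Λ hq hG ε hε => ?_⟩
  by_contra hc
  push Not at hc
  have hq' : (15 * 2 ^ n : ℝ) ≤ q := by exact_mod_cast hq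
  have q0 : (0 : ℝ) < q := lt_of_lt_of_le (by positivity) hq'
  obtain ⟨s, hs, bs⟩ := hG.nw ε
  obtain ⟨s', hs', bs'⟩ := hG.nw 0
  have two : ∀ (t : ℕ → ℂ), (∀ m, m ≠ 0 → 10 * ‖t m‖ ≤ 11 * (q : ℝ) ^ m) →
      ∀ m, m ≠ 0 → ‖t m‖ ≤ 2 * (q : ℝ) ^ m := fun t ht m hm => by
    have := ht m hm
    have : (0 : ℝ) ≤ (q : ℝ) ^ m := by positivity
    linarith
  obtain ⟨b1, b2⟩ := H (fun j => ev ε (Λ.W j)) (fun j => ev 0 (Λ.W j)) s s' q η q0 η0.le
    (by simp [Λ.w0]) (by simp [Λ.w0]) hs hs' (two s bs) (two s' bs') fun j hj => by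
      have p0 : (0 : ℝ) ≤ (q : ℝ) ^ j := by positivity
      refine ord3_diff ε _ (Λ.nn j) (c * q ^ j) η _ η0.le p0 (by exact_mod_cast hG.e0 j hj) ?_
      have h1 : (E : ℝ) * #{a | (Λ.W j).coeff a ≠ 0 ∧ ε a ≠ 1} ≤ q ^ j := by
        exact_mod_cast hc j hj
      have h2 := mul_le_mul_of_nonneg_right hE
        (mul_nonneg (Nat.cast_nonneg (α := ℝ) #{a | (Λ.W j).coeff a ≠ 0 ∧ ε a ≠ 1}) p0)
      have h3 := mul_le_mul_of_nonneg_right h1 (mul_nonneg (sq_nonneg η) p0)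
      linarith
  obtain ⟨m, rfl⟩ : ∃ m, n = m + 1 := ⟨n - 1, by omega⟩
  have fe := Λ.fe ε hε m (by omega)
  rw [show 2 * (m + 1) - m = m + 1 + 1 by omega, show m + 1 - m = 1 by omega] at fe
  have n1 : ‖ev ε (Λ.W (m + 1 + 1))‖ ≤ 2 ^ m * (q : ℝ) ^ (m + 1) := by
    rw [fe, norm_mul, norm_mul, AddChar.norm_apply, Complex.norm_conj, pow_one, Complex.norm_natCast,
      mul_one]
    have := mul_le_mul_of_nonneg_left (b1 m) q0.le
    rw [mul_pow] at this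
    rw [pow_succ]
    linarith
  have n2 := hG.ms
  have n3 := norm_sub_norm_le (ev (0 : AddChar A ℂ) (Λ.W (m + 1 + 1))) (ev ε (Λ.W (m + 1 + 1)))
  rw [norm_sub_rev] at n3
  have n4 := bs (m + 1 + 1) (by omega)
  have n5 := bs' (m + 1 + 1) (by omega)
  have n6 : (3 : ℝ) ≤ ((m + 1 : ℕ) : ℝ) + 1 := by
    have : ((2 : ℕ) : ℝ) ≤ ((m + 1 : ℕ) : ℝ) := by exact_mod_cast hn
    push_cast at this ⊢
    linarith
  have n7 := mul_le_mul_of_nonneg_right n6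
    (norm_nonneg (ev ε (Λ.W (m + 1 + 1)) - ev (0 : AddChar A ℂ) (Λ.W (m + 1 + 1))))
  have p1 : (0 : ℝ) < (q : ℝ) ^ (m + 1) := by positivity
  have n8 := mul_le_mul_of_nonneg_right hq' p1.le
  have n9 : (0 : ℝ) < 2 ^ m * (q : ℝ) ^ (m + 1) := by positivity
  rw [Kη] at b2
  rw [pow_succ (q : ℝ) (m + 1)] at n2 n4 n5 b2
  rw [pow_succ (2 : ℝ) m] at n8
  linarith

end

section

lemma ored_char {A : Type} [AddCommGroup A] [Fintype A] (H : AddSubgroup A) (hH : H ≠ ⊤) :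
    ∃ ε : AddChar A ℂ, ε ≠ 0 ∧ ∀ a ∈ H, ε a = 1 := by
  obtain ⟨a, ha⟩ : ∃ a, a ∉ H := by
    by_contra h
    exact hH (H.eq_top_iff'.2 fun a => by_contra fun e => h ⟨a, e⟩)
  have h0 : (QuotientAddGroup.mk' H a) ≠ 0 := fun e => ha ((QuotientAddGroup.eq_zero_iff a).1 e)
  obtain ⟨ψ, hψ⟩ := (AddChar.exists_apply_ne_zero (α := A ⧸ H)).2 h0
  refine ⟨ψ.compAddMonoidHom (QuotientAddGroup.mk' H), fun e => hψ ?_, fun b hb => ?_⟩
  · simpa using DFunLike.congr_fun e a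
  · have : (QuotientAddGroup.mk' H b) = 0 := (QuotientAddGroup.eq_zero_iff b).2 hb
    rw [AddChar.compAddMonoidHom_apply, this, AddChar.map_zero_eq_one]

lemma ored_mul {A : Type} [AddCommGroup A] [Fintype A] (hc : IsAddCyclic A) (H : AddSubgroup A)
    {r l : ℕ} (hr : Nat.card H * r = Nat.card A) (hl : l ∣ r) {a : A} (ha : a ∈ H) :
    ∃ u, a = l • u := by
  obtain ⟨g, hg⟩ := IsAddCyclic.exists_ofOrder_eq_natCard (α := A)
  have ht : AddSubgroup.zmultiples g = ⊤ := by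
    apply AddSubgroup.eq_top_of_card_eq
    rw [Nat.card_zmultiples, hg]
  obtain ⟨i, rfl⟩ : ∃ i : ℕ, i • g = a :=
    (mem_multiples_iff_mem_zmultiples (x := g) (y := a)).2 (ht ▸ AddSubgroup.mem_top a)
  have h1 : Nat.card H • (i • g) = 0 :=
    congrArg Subtype.val (card_nsmul_eq_zero' (x := (⟨i • g, ha⟩ : H)))
  rw [← mul_nsmul', ← addOrderOf_dvd_iff_nsmul_eq_zero, hg, ← hr] at h1
  obtain ⟨k, rfl⟩ := hl.trans (Nat.dvd_of_mul_dvd_mul_left Nat.card_pos h1)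
  exact ⟨k • g, mul_nsmul' g l k⟩

theorem p_RED (hRDA : S_RDA) (hRDB : S_RDB) (hRD3 : S_RD3) :
    S_RED := by
  intro c n hn
  obtain ⟨E, q3, h3⟩ := hRD3 c n hn
  obtain ⟨qa, ha⟩ := hRDA c n E
  obtain ⟨qb, hb⟩ := hRDB c n E
  refine ⟨q3 + qa + qb, fun q A A' _ _ _ _ Λ Λ' j hq hB hG hG' hc he => ?_⟩
  have key : ∀ H : AddSubgroup A, H ≠ ⊤ →
      ¬ ∀ i ≤ n, E * #{a | (Λ.W i).coeff a ≠ 0 ∧ a ∉ H} ≤ q ^ i := by
    intro H hH h
    obtain ⟨ε, h0, h1⟩ := ored_char H hH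
    obtain ⟨i, hi, hlt⟩ := h3 q A Λ (by omega) hG ε h0
    refine (hlt.trans_le (Nat.mul_le_mul_left E (card_le_card fun a => ?_))).not_ge (h i hi)
    simp only [mem_filter, mem_univ, true_and]
    exact fun e => ⟨e.1, fun m => e.2 (h1 a m)⟩
  have hr : Nat.card j.range * Nat.card j.ker = Nat.card A := by
    rw [← hc, AddSubgroup.card_eq_card_quotient_mul_card_addSubgroup j.ker,
      Nat.card_congr (QuotientAddGroup.quotientKerEquivRange j).toEquiv]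
  rw [Nat.bijective_iff_injective_and_card]
  refine ⟨?_, hc⟩
  rw [← AddMonoidHom.ker_eq_bot_iff, ← AddSubgroup.card_eq_one]
  by_contra h1
  rcases le_or_gt (Nat.card j.ker) 2 with h2 | h2
  · refine key j.range (fun e => h1 ?_) fun i hi => ?_
    · rw [e, AddSubgroup.card_top] at hr
      exact (Nat.mul_eq_left Nat.card_pos.ne').1 hr
    · convert hb q A A' Λ Λ' j (by omega) hB hG hG' h2 i hi fun ψ hψ => he ψ hψ i hi
  · obtain ⟨l, hp, hl, h4⟩ : ∃ l, l.Prime ∧ l ∣ Nat.card j.ker ∧ (l ≠ 2 ∨ 4 ∣ Nat.card A) := by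
      rcases Nat.four_dvd_or_exists_odd_prime_and_dvd_of_two_lt h2 with h | ⟨l, hp, hl, ho⟩
      · exact ⟨2, Nat.prime_two, (by norm_num : 2 ∣ 4).trans h, Or.inr (hr ▸ h.mul_left _)⟩
      · exact ⟨l, hp, hl, Or.inl fun e => by simp [e, ← Nat.not_even_iff_odd] at ho⟩
    have hlA : l ∣ Nat.card A := hr ▸ hl.mul_left _
    refine key (nsmulAddMonoidHom l).range (fun e => ?_) fun i hi => ?_
    · have := Fact.mk hp
      obtain ⟨x, hx⟩ := exists_prime_addOrderOf_dvd_card' (G := A) l hlA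
      have hi := Finite.injective_iff_surjective.2 (AddMonoidHom.range_eq_top.1 e)
      have : x = 0 := hi (by simp [← hx])
      rw [this, addOrderOf_zero] at hx
      exact hp.ne_one hx.symm
    · have := ha q A Λ (by omega) hB hG l hp hlA h4 i hi (pu j (Λ'.W i))
        (fun ψ hψ => he ψ hψ i hi) fun b hb0 => by
          obtain ⟨u, -, hu⟩ := mem_image.1
            (Finsupp.mapDomain_support (Finsupp.mem_support_iff.2 hb0))
          exact ored_mul hB.cyc j.range hr hl ⟨u, hu⟩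
      simpa only [AddMonoidHom.mem_range, nsmulAddMonoidHom_apply, eq_comm] using this

end

section

lemma oadd_deg (hLB : Hy.S_LB) {q n : ℕ} {A : Type} [AddCommGroup A] [Fintype A] (Λ : LD q n A)
    (hq : 0 < q) : (∏ χ ∈ univ.erase 0, Λ.L χ).natDegree = (Nat.card A - 1) * (2 * n) := by
  have a := fun χ (hχ : χ ∈ univ.erase (0 : AddChar A ℂ)) => hLB q n A Λ hq χ (ne_of_mem_erase hχ)
  rw [natDegree_prod _ _ fun χ hχ e => by simpa [e] using (a χ hχ).1,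
    sum_const_nat fun χ hχ => (a χ hχ).2.1, card_erase_of_mem (mem_univ _), card_univ,
    AddChar.card_eq, Nat.card_eq_fintype_card]

theorem p_ADD (hhAV : Hy.S_AV) (hhKER : Hy.S_KER) (hhLB : Hy.S_LB) (hhTP : Hy.S_TP) (hnMT2 : Nh.S_MT2) (hNSP : S_NSP) (hEQL : S_EQL) (hRED : S_RED) :
    S_ADD := by
  intro c n e C0 hn
  obtain ⟨q1, H1⟩ := hnMT2 c n C0
  obtain ⟨q2, H2⟩ := hNSP c n e (by omega)
  obtain ⟨q3, H3⟩ := hRED c n hn
  refine ⟨q1 + q2 + q3 + 4, fun q p A A' _ _ _ _ Λ Λ' hq B G G' hLo hS eP => ?_⟩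
  have q0 : 0 < q := by omega
  have hc : Nat.card A' = Nat.card A := by
    have a := oadd_deg hhLB Λ q0
    rw [eP, oadd_deg hhLB Λ' q0] at a
    have a1 := Nat.eq_of_mul_eq_mul_right (by omega) a
    have := Nat.card_pos (α := A)
    have := Nat.card_pos (α := A')
    omega
  obtain ⟨χ, hχ⟩ := (hhAV A B.cyc).1
  have := B.nt
  have x0 := Fa_ne hχ
  have l0 := hhLB q n A Λ q0 χ x0
  obtain ⟨α, hα⟩ := IsAlgClosed.exists_root (Λ.L χ)
    (natDegree_pos_iff_degree_pos.1 (by rw [l0.2.1]; omega)).ne'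
  have h0 : (∏ χ ∈ univ.erase 0, Λ'.L χ).eval α = 0 := by
    rw [← eP, eval_prod]
    exact prod_eq_zero (mem_erase.2 ⟨x0, mem_univ _⟩) hα
  rw [eval_prod, prod_eq_zero_iff] at h0
  obtain ⟨χ', x1, hα'⟩ := h0
  have l1 := hhLB q n A' Λ' q0 χ' (ne_of_mem_erase x1)
  obtain ⟨j, rfl⟩ := (hhKER A χ hχ).2 A' χ' fun a => by
    rw [← AddChar.map_nsmul_eq_pow, ← hc, card_nsmul_eq_zero', AddChar.map_zero_eq_one]
  have eq := hEQL A χ hχ q (2 * n) (Λ.L χ) _ q0 ⟨Λ.LZ, rfl⟩ ⟨Λ'.LZ.map (pu j), by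
    rw [Polynomial.map_map]
    exact congrArg Λ'.LZ.map (RingHom.ext (ev_pu χ j))⟩ l0.1 l1.1 l0.2.1 l1.2.1 l0.2.2.1 l1.2.2.1
    (H2 q p A Λ (by omega) B G hLo χ hχ) α hα hα'
  have ec : ∀ i ≤ 2 * n, ev χ (Λ.W i) = ev χ (pu j (Λ'.W i)) := fun i hi => by
    rw [ev_pu, ← Λ.coeff_L χ hi, eq, Λ'.coeff_L _ hi]
  let Θ : A' ≃+ A := .ofBijective j (H3 q A A' Λ Λ' j (by omega) B G G' hc fun ψ hψ i hi => by
    rw [← sub_eq_zero, ← map_sub]
    exact ((hhKER A χ hχ).1 ψ hψ).1 _ (by rw [map_sub, ec i (by omega), sub_self]))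
  obtain ⟨Λ1, t1, -, t3, -⟩ := hhTP q n A' A Λ' Θ
  have e1 : ev χ (ind Λ.S) = ev χ (ind Λ1.S) := by
    rw [← Λ.w1, ← Λ1.w1, t1.W]
    exact ec 1 (by omega)
  have hi := Λ.hi
  refine ⟨Θ.symm, (H1 q A Λ.S Λ1.S (by omega) B Λ.sid Λ1.sid (hS.trans t3.symm) (by omega)
    χ hχ e1).trans_eq' ?_⟩
  congr 2
  ext s
  rw [mem_sdiff, mem_filter, t1.S, mem_image]
  exact and_congr_right' (not_congr ⟨fun ⟨a, a1, a2⟩ => by rwa [← a2, Θ.symm_apply_apply],
    fun a => ⟨_, a, Θ.apply_symm_apply s⟩⟩)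

end

section

lemma opw_num {Q N l : ℕ} (hQ : 2 ≤ Q) (h : N * (Q - 1) + 1 = Q ^ l) :
    Q * N ≤ 2 * Q ^ l ∧ (N = 0 ↔ l = 0) ∧ (N = 1 ↔ l = 1) ∧ (N ≤ 1 ∨ Q ≤ N) := by
  obtain ⟨r, rfl⟩ := Nat.exists_eq_add_of_le' hQ
  rw [show r + 2 - 1 = r + 1 from rfl] at h
  have inj := Nat.pow_right_injective hQ
  have a0 : N = 0 ↔ l = 0 := ⟨fun e => inj (by simpa [e] using h.symm), fun e => by
    simpa [e] using h⟩
  have a1 : N = 1 ↔ l = 1 := ⟨fun e => inj (by simpa [e] using h.symm), fun e =>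
    Nat.eq_of_mul_eq_mul_right (Nat.add_one_pos r) (by rw [e, pow_one] at h; omega)⟩
  refine ⟨by rw [← h]; nlinarith [Nat.zero_le (N * r)], a0, a1, ?_⟩
  rcases le_or_gt l 1 with e | e
  · left
    omega
  · have := Nat.pow_le_pow_right (n := r + 2) (by omega) e
    rw [← h] at this
    exact .inr (Nat.le_of_mul_le_mul_right (c := r + 1) (by nlinarith) r.succ_pos)

lemma opw_pair {k E : Type} [Field k] [Field E] [Algebra k E] [IsAlgClosed k] [FF k E]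
    {σ : SA k E} {Q : ℕ} (fb : FB σ Q) (e : Pic k E) [Fintype (J σ)] (i j : ℕ) (b : J σ) :
    ∑ a : J σ, #((ef σ i).filter fun A : Dv k E => (A : Pic k E) = a.1 + i • e) *
        #((ef σ j).filter fun A : Dv k E => (A : Pic k E) = (b - a).1 + j • e) ≤
      2 ^ (i + j) *
        #((ef σ (i + j)).filter fun A : Dv k E => (A : Pic k E) = b.1 + (i + j) • e) := by
  simp only [← card_product]
  rw [← card_sigma]
  refine card_le_mul_card_image_of_maps_to (f := fun x => x.2.1 + x.2.2) (fun x hx => ?_) _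
    fun B hB => ?_
  · simp only [mem_sigma, mem_product, mem_filter] at hx
    obtain ⟨-, ⟨h1, h2⟩, h3, h4⟩ := hx
    obtain ⟨a1, a2, a3⟩ := (fb.ef _ _).1 h1
    obtain ⟨b1, b2, b3⟩ := (fb.ef _ _).1 h3
    refine mem_filter.2 ⟨(fb.ef _ _).2 ⟨add_nonneg a1 b1, fun P => ?_, ?_⟩, ?_⟩
    · rw [Finsupp.add_apply, Finsupp.add_apply, a2, b2]
    · rw [map_add, a3, b3, Nat.cast_add]
    · rw [QuotientAddGroup.mk_add, h2, h4, AddSubgroup.coe_sub, add_nsmul]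
      abel
  · obtain ⟨b1, -, b3⟩ := (fb.ef _ _).1 (mem_filter.1 hB).1
    refine (card_le_card_of_injOn (fun x => x.2.1) (fun x hx => ?_) fun x hx y hy h => ?_).trans
      (pai_icc B b1 _ b3)
    · simp only [mem_coe, mem_sigma, mem_product, mem_filter] at hx
      obtain ⟨⟨-, ⟨h1, -⟩, h3, -⟩, h5⟩ := hx
      exact mem_coe.2 (mem_Icc.2 ⟨((fb.ef _ _).1 h1).1,
        h5 ▸ le_add_of_nonneg_right ((fb.ef _ _).1 h3).1⟩)
    · simp only [mem_coe, mem_sigma, mem_product, mem_filter] at hx hy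
      have h0 : x.2.1 = y.2.1 := h
      have e1 := hx.2.trans hy.2.symm
      have h1 := hx.1.2.1.2
      rw [h0] at e1
      rw [h0, hy.1.2.1.2, add_left_inj] at h1
      exact Sigma.ext (Subtype.ext h1.symm) (heq_of_eq (Prod.ext h0 (add_left_cancel e1)))

theorem p_PW :
    S_PW := by
  intro k E _ _ _ _ _ K e n σ Q Λ _ g fb hL
  have hQ : 2 ≤ Q := fb.fr.1
  have d : ∀ (a : J σ) (j : ℕ), dg (a.1 + j • e) = j := fun a j => by
    simp [hL.e2, (mem_J.1 a.2).2]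
  have c := fun (a : J σ) (j : ℕ) => fb.cnt j (a.1 + j • e)
    (by rw [map_add, map_nsmul, hL.e1, (mem_J.1 a.2).1]) (d a j)
  refine ⟨fun i j b => ?_, fun j hj a => ?_, fun j a => ?_⟩
  · simp only [hL.W i, hL.W j]
    have h1 := Nat.mul_le_mul_left Q (opw_pair fb e i j b)
    have h2 := Nat.mul_le_mul_left (2 ^ (i + j)) (opw_num hQ (c b (i + j))).1
    rw [mul_left_comm] at h1
    rw [← mul_assoc _ 2, ← pow_succ] at h2
    exact_mod_cast h1.trans h2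
  · have r := g.rg (a.1 + j • e)
    have e3 : (Λ.ω - a).1 + (2 * n - j) • e = K - (a.1 + j • e) := by
      obtain ⟨i, hi⟩ : ∃ i, 2 * n = i + j := ⟨2 * n - j, by omega⟩
      rw [AddSubgroup.coe_sub, hL.ω, hi, Nat.add_sub_cancel, add_nsmul]
      abel
    have c1 := c a j
    have c2 := c (Λ.ω - a) (2 * n - j)
    rw [d] at r
    rw [show ll ((Λ.ω - a).1 + (2 * n - j) • e) = n - j + ll (a.1 + j • e) by rw [e3]; omega,
      pow_add, ← c1, mul_add, mul_one, ← mul_assoc] at c2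
    have p : 0 < Q ^ (n - j) := Nat.pow_pos (by omega)
    rw [hL.W, hL.W]
    exact_mod_cast Nat.le_of_mul_le_mul_right (c := Q - 1) (by omega) (by omega)
  · rw [hL.W]
    exact_mod_cast (opw_num hQ (c a j)).2

end

section

theorem p_G01 (hPW : S_PW) :
    S_G01 := by
  intro k E _ _ _ _ _ K e n σ Q Λ _ gb fb il
  obtain ⟨p1, p2, p3⟩ := hPW k E K e n σ Q Λ gb fb il
  have hQ : 2 ≤ Q := fb.fr.1
  have q0 : (0 : ℤ) < Q := by exact_mod_cast (by omega : 0 < Q)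
  have key : ∀ j ≤ n, ∀ (b : J σ) (m : ℕ), ll (K - b.1) ≤ n - j + m →
      Q * ∑ a, (Λ.W j).coeff a * (Λ.W j).coeff (a + b) ≤ 2 ^ (2 * n + 1) * Q ^ m :=
    fun j hj b m hm => by
      have h := p1 j (2 * n - j) (Λ.ω - b)
      rw [show j + (2 * n - j) = 2 * n by omega, AddSubgroup.coe_sub, il.ω,
        show K - (2 * n) • e - b.1 + (2 * n) • e = K - b.1 by abel] at h
      refine le_of_mul_le_mul_left ?_ (pow_pos q0 (n - j))
      rw [mul_left_comm _ (2 ^ _), ← pow_add, mul_left_comm, mul_sum]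
      refine (mul_le_mul_of_nonneg_left (sum_le_sum fun a _ => ?_) q0.le).trans (h.trans
        (mul_le_mul_of_nonneg_left (pow_le_pow_right₀ q0 hm) (by positivity)))
      rw [mul_left_comm, sub_sub, add_comm b]
      exact mul_le_mul_of_nonneg_left (p2 j hj _) (Λ.nn _ _)
  refine ⟨fun j hj => ?_, fun j hj b hb => key j hj b j ?_, fun j hj a ha => ?_⟩
  · have := key j hj 0 (j + 1) (by rw [AddSubgroup.coe_zero, sub_zero, gb.llK]; omega)
    simp only [add_zero, ← sq] at this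
    rw [pow_succ' (Q : ℤ), mul_left_comm] at this
    exact le_of_mul_le_mul_left this q0
  · by_contra h
    have := gb.can (K - b.1) (by rw [map_sub, (mem_J.1 b.2).2, sub_zero, gb.dgK]) (by omega)
    exact hb (Subtype.ext (sub_eq_self.1 this))
  · have h := p1 j n (Λ.ω - a)
    have e3 : (Λ.ω - a).1 + (j + n) • e = K - (a.1 + (n - j) • e) := by
      obtain ⟨i, rfl⟩ := Nat.exists_eq_add_of_le hj.le
      rw [AddSubgroup.coe_sub, il.ω, Nat.add_sub_cancel_left]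
      module
    have r := gb.rg (a.1 + (n - j) • e)
    rw [(p3 _ _).1.1 ha, map_add, map_nsmul, il.e2, (mem_J.1 a.2).2, nsmul_one] at r
    rw [e3, show ll (K - (a.1 + (n - j) • e)) = j by omega] at h
    refine le_trans (mul_le_mul_of_nonneg_left ?_ q0.le) (h.trans (mul_le_mul_of_nonneg_right
      (pow_le_pow_right₀ one_le_two (by omega)) (by positivity)))
    rw [← Equiv.sum_comp (Equiv.addRight a)]
    refine sum_le_sum fun u _ => ?_
    have := p2 n le_rfl (u + a)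
    rw [Nat.sub_self, pow_zero, one_mul, show 2 * n - n = n by omega] at this
    rw [Equiv.coe_addRight, add_sub_cancel_right, mul_comm, sub_sub, add_comm a]
    exact mul_le_mul_of_nonneg_left this (Λ.nn _ _)

end

end Pool.Agent.P.MP_9344a7_nt.Od
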