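import Pool.Agent.P.MP_9344a7_nt.Od.Iface
import Pool.Agent.P.MP_9344a7_nt.Hy.M9
import Pool.Agent.P.MP_9344a7_nt.Hy.M7

/-! Steps GT, GNW, GD, LO. -/

set_option linter.unusedSectionVars false
set_option linter.unusedVariables false

namespace Pool.Agent.P.MP_9344a7_nt.Od

open Polynomial Finset
open Pool.Agent.P.MP_6f117a_ag (Place FF)
open Pool.Agent.P.MP_ab3ecb_nt.Inv (Dv deg SA LS)
open Pool.Agent.P.MP_9344a7_nt.R
open Pool.Agent.P.MP_9344a7_nt.Hy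
open scoped Classical ComplexConjugate

section

section

variable {k E : Type} [Field k] [Field E] [Algebra k E] [IsAlgClosed k] [FF k E]

lemma ogt_good {τ : Equiv.Perm (Place k E)} {n : ℕ} (hn : n ≠ 0) {P : Place k E}
    (h0 : τ^[n] P = P) (h2 : ∀ i < n, i ≠ 0 → τ^[i] P ≠ P) :
    Nm τ n P P ≠ 0 ∧ ∀ R, Nm τ n P R ≠ 0 → ∀ m, ∀ A ∈ Eff τ m, A R ≠ 0 → Nm τ n P ≤ A := by
  have e1 : Nm τ n P P = 1 := by
    rw [Nm, Finsupp.finsetSum_apply, sum_eq_single 0 (fun i hi h =>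
      Finsupp.single_eq_of_ne' (h2 i (mem_range.1 hi) h)) (by simp [hn])]
    simp
  refine ⟨by rw [e1]; exact one_ne_zero, fun R hR m A hA h => (Nm_le hA h0).2 ?_⟩
  obtain ⟨i, rfl⟩ : ∃ i, τ^[i] P = R := by
    by_contra! h
    rw [Nm, Finsupp.finsetSum_apply] at hR
    exact hR (sum_eq_zero fun i _ => Finsupp.single_eq_of_ne' (h i))
  rw [inv_iter hA.2.1] at h
  have : 0 ≤ A P := hA.1 P
  omega

end

theorem p_GT (hPW : S_PW) (hG01 : S_G01) :
    S_GT := by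
  intro n hn
  refine ⟨2 * n * 2 ^ (2 * n + 1) + 4 * n, ?_⟩
  intro k E _ _ _ _ _ K e σ Q Λ _ hQ gb fb il h1 h2
  obtain ⟨-, -, pw⟩ := hPW k E K e n σ Q Λ gb fb il
  have g1 := (hG01 k E K e n σ Q Λ gb fb il).1 n le_rfl
  have Q0 : 0 < Q := by omega
  set T : Finset (J σ) := {x | (Λ.W n).coeff x = 1 ∧
    ∀ j, 0 < j → j < n → ∀ a, (Λ.W (n - j)).coeff a = 0 ∨ (Λ.W j).coeff (x - a) = 0} with hT
  set G := {P ∈ fx σ n | ∀ i < n, i ≠ 0 → σ.pl^[i] P ≠ P} with hG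
  let F : J σ → Finset (Dv k E) := fun x =>
    (ef σ n).filter fun A : Dv k E => (A : Pic k E) = x.1 + n • e
  have hF : ∀ x, (Λ.W n).coeff x = #(F x) := il.W n
  set B : Finset (J σ) := {x | Q ≤ #(F x)} with hB
  have gd := fun P (hP : P ∈ G) =>
    ogt_good hn.ne' ((fb.fx n hn.ne' P).1 (mem_filter.1 hP).1) (mem_filter.1 hP).2
  have a1 : #G ≤ n * #(G.image (Nm σ.pl n)) := card_le_mul_card_image G n fun D hD => by
    obtain ⟨P, hP, rfl⟩ := mem_image.1 hD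
    have := hd3_card (Nm_nonneg (τ := σ.pl) n P)
    rw [deg_Nm] at this
    refine (card_le_card fun R hR => ?_).trans (Nat.cast_le.1 this)
    obtain ⟨a, b⟩ := mem_filter.1 hR
    exact Finsupp.mem_support_iff.2 (b ▸ (gd R a).1)
  have a2 : G.image (Nm σ.pl n) ⊆ T.biUnion F ∪ B.biUnion F := fun D hD => by
    obtain ⟨P, hP, rfl⟩ := mem_image.1 hD
    have d1 : Nm σ.pl n P ∈ Eff σ.pl n :=
      ⟨Nm_nonneg _ _, Nm_inv ((fb.fx n hn.ne' P).1 (mem_filter.1 hP).1), deg_Nm _ _⟩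
    have d2 := sub_mem_J il.e1 il.e2 (ph_inv d1.2.1)
    rw [dg_mk, d1.2.2, natCast_zsmul] at d2
    obtain ⟨x, hx⟩ : ∃ x : J σ, (Nm σ.pl n P : Pic k E) = x.1 + n • e :=
      ⟨⟨_, d2⟩, (sub_add_cancel _ _).symm⟩
    have d3 : Nm σ.pl n P ∈ F x := mem_filter.2 ⟨(fb.ef _ _).2 d1, hx⟩
    rcases (pw n x).2.2 with c | c
    swap
    · rw [hF] at c
      exact mem_union_right _ (mem_biUnion.2 ⟨x, mem_filter.2 ⟨mem_univ _, Nat.cast_le.1 c⟩, d3⟩)
    have d4 : (Λ.W n).coeff x = 1 := by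
      have := card_pos.2 ⟨_, d3⟩
      have := hF x
      omega
    refine mem_union_left _ (mem_biUnion.2 ⟨x, mem_filter.2 ⟨mem_univ _, d4, fun j j0 jn a => ?_⟩,
      d3⟩)
    by_contra! c
    obtain ⟨c1, c2⟩ := c
    rw [il.W, Nat.cast_ne_zero, card_ne_zero] at c1 c2
    obtain ⟨A, hA⟩ := c1
    obtain ⟨A', hA'⟩ := c2
    obtain ⟨b1, b2⟩ := mem_filter.1 hA
    obtain ⟨b3, b4⟩ := mem_filter.1 hA'
    rw [fb.ef] at b1 b3
    have d5 : A + A' = Nm σ.pl n P := by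
      refine eff_unique ((ll_mk _).symm.trans ?_) d1.1 (add_nonneg b1.1 b3.1) (mk_eq.1 ?_)
      · rw [hx]
        exact (pw n x).2.1.1 d4
      · rw [QuotientAddGroup.mk_add, b2, b4, hx, AddSubgroup.coe_sub, add_add_add_comm, ← add_nsmul,
          Nat.sub_add_cancel jn.le, add_sub_cancel]
    obtain ⟨R, hR⟩ := Finsupp.support_nonempty_iff.2 fun e : A = 0 => by
      have := b1.2.2
      rw [e, map_zero] at this
      omega
    have hR := Finsupp.mem_support_iff.1 hR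
    have d6 := Pool.Agent.P.MP_ab3ecb_nt.Inv.deg_mono ((gd P hP).2 R (by
      have u1 : 0 ≤ A R := b1.1 R
      have u2 : 0 ≤ A' R := b3.1 R
      rw [← d5, Finsupp.add_apply]
      omega) _ A b1 hR)
    rw [b1.2.2, d1.2.2] at d6
    omega
  have a3 : #(T.biUnion F) ≤ #T := (card_biUnion_le_card_mul T F 1 fun x hx => by
    have := (mem_filter.1 hx).2.1
    have := hF x
    omega).trans (mul_one _).le
  have a4 : Q * #(B.biUnion F) ≤ 2 ^ (2 * n + 1) * Q ^ n := by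
    refine (Nat.mul_le_mul_left Q card_biUnion_le).trans ?_
    rw [mul_sum]
    refine (sum_le_sum (g := fun x => #(F x) ^ 2) fun x hx => ?_).trans
      ((sum_le_sum_of_subset (subset_univ B)).trans ?_)
    · rw [sq]
      exact Nat.mul_le_mul_right _ (mem_filter.1 hx).2
    · simp only [hF] at g1
      exact_mod_cast g1
  obtain ⟨m, rfl⟩ : ∃ m, n = m + 1 := ⟨n - 1, by omega⟩
  have a5 : #((Ico 1 (m + 1)).biUnion (fx σ)) ≤ m * (2 * Q ^ m) :=
    (card_biUnion_le_card_mul _ _ (2 * Q ^ m) fun i hi => by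
      have := mem_Ico.1 hi
      have := h2 i (by omega)
      have := Nat.pow_le_pow_right Q0 (show i ≤ m by omega)
      omega).trans (by simp)
  have a6 := (card_le_card (s := fx σ (m + 1)) (t := G ∪ (Ico 1 (m + 1)).biUnion (fx σ))
    fun P hP => mem_union.2 (or_iff_not_imp_right.2 fun c => mem_filter.2 ⟨hP, fun i hi i0 e =>
      c (mem_biUnion.2 ⟨i, mem_Ico.2 (by omega), (fb.fx i i0 P).2 e⟩)⟩)).trans (card_union_le _ _)
  have a7 := (card_le_card a2).trans (card_union_le _ _)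
  rw [pow_succ Q m, ← mul_assoc, mul_comm Q] at a4
  have a8 := Nat.le_of_mul_le_mul_right a4 Q0
  have a9 := Nat.mul_le_mul_left (Q ^ m) hQ
  have a10 := Nat.mul_le_mul_left (m + 1) (a7.trans (add_le_add a3 a8))
  rw [pow_succ Q m] at h1 ⊢
  generalize 2 ^ (2 * (m + 1) + 1) = c at *
  nlinarith [Nat.zero_le (Q ^ m)]

end

section

lemma ognw_low {a N : ℕ → ℕ} {θ Q : ℝ} (h0 : 0 ≤ θ) (h1 : θ ≤ 1) (hQ : 0 ≤ Q) (a0 : a 0 = 1)
    (hN : ∀ m, m ≠ 0 → θ * Q ^ m ≤ N m)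
    (nw : ∀ j : ℕ, (j : ℝ) * a j = ∑ i ∈ range j, (N (j - i) : ℝ) * a i) (j : ℕ) :
    θ ^ j * Q ^ j ≤ a j := by
  induction j using Nat.strong_induction_on with
  | _ j ih =>
    rcases Nat.eq_zero_or_pos j with rfl | hj
    · simp [a0]
    refine le_of_mul_le_mul_left ?_ (Nat.cast_pos.2 hj : (0 : ℝ) < j)
    rw [nw]
    refine le_trans (by simp) (card_nsmul_le_sum _ _ (θ ^ j * Q ^ j) fun i hi => ?_)
    have hi := mem_range.1 hi
    refine le_trans ?_ (mul_le_mul (hN _ (by omega)) (ih i hi) (by positivity) (by positivity))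
    rw [show θ * Q ^ (j - i) * (θ ^ i * Q ^ i) = θ ^ (i + 1) * (Q ^ (j - i) * Q ^ i) by ring,
      pow_sub_mul_pow _ hi.le]
    exact mul_le_mul_of_nonneg_right (pow_le_pow_of_le_one h0 h1 hi) (by positivity)

theorem p_GNW (hhFE : Hy.S_FE) :
    S_GNW := by
  intro k E _ _ _ _ _ K e n σ Q Λ _ hg ft il h1 h2
  refine ⟨fun χ => ⟨_, (hhFE k E K e n σ Q Λ.W Λ.ω hg ft il.e1 il.e2 il.W il.ω χ).1,
    fun m hm => ?_⟩, ?_⟩
  · have a1 : ‖sm e χ m‖ ≤ #(fx σ m) := (norm_sum_le _ _).trans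
      ((sum_le_card_nsmul _ _ 1 fun P _ => by
        unfold R.ext
        split_ifs
        exacts [(AddChar.norm_apply _ _).le, by simp]).trans (by simp))
    have a2 : (10 : ℝ) * #(fx σ m) ≤ (10 + 1) * Q ^ m := by exact_mod_cast h2 m hm
    linarith
  have N1 : Newt (fun j => #(ef σ j)) fun j => #(fx σ j) := by
    simpa using newton (ef σ) ft.ef (fx σ) ft.fx (fun _ => 1) fun _ _ _ _ => (one_mul _).symm
  have z0 : ef σ 0 = {0} := Finset.ext fun A => by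
    rw [ft.ef, eff_zero, mem_singleton, Set.mem_singleton_iff]
  have a1 : ev (0 : AddChar (J σ) ℂ) (Λ.W (n + 1)) = #(ef σ (n + 1)) := by
    rw [fe_ev ft il.e1 il.e2 il.W, sum_congr rfl (g := fun _ => 1) fun A hA => by
      rw [R.ext, dif_pos (sub_mem_J il.e1 il.e2 (ph_inv ((ft.ef _ _).1 hA).2.1))]
      rfl]
    simp
  have n0 : (0 : ℝ) ≤ n := n.cast_nonneg
  have a2 := ognw_low (a := fun j => #(ef σ j)) (N := fun j => #(fx σ j)) (Q := Q)
    (θ := 10 * (n + 1) / (10 * (n + 1) + 1)) (by positivity)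
    ((div_le_one (by positivity)).2 (by linarith)) Q.cast_nonneg (by simp [z0])
    (fun m hm => by
      rw [div_mul_eq_mul_div, div_le_iff₀' (by positivity)]
      exact_mod_cast h1 m hm)
    (fun j => by
      have h3 : (j : ℂ) * #(ef σ j) = ∑ i ∈ range j, (#(fx σ (j - i)) : ℂ) * #(ef σ i) := N1 j
      exact_mod_cast h3) (n + 1)
  have a3 := one_add_mul_le_pow (a := -(1 / (10 * (n + 1) + 1) : ℝ))
    (by
      have : (1 / (10 * (n + 1) + 1) : ℝ) ≤ 1 := (div_le_one (by positivity)).2 (by linarith)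
      linarith) (n + 1)
  have a4 : ((n + 1 : ℕ) : ℝ) * (1 / (10 * (n + 1) + 1)) ≤ 1 / 10 := by
    rw [mul_one_div, div_le_iff₀ (by positivity)]
    push_cast
    linarith
  rw [show (1 + -(1 / (10 * (n + 1) + 1)) : ℝ) = 10 * (n + 1) / (10 * (n + 1) + 1) by
    field_simp; ring] at a3
  rw [a1, Complex.norm_natCast]
  have a5 : (0 : ℝ) ≤ Q ^ (n + 1) := by positivity
  nlinarith

end

section

lemma ogd_cnt {A : Type} [AddCommGroup A] [Fintype A] {U V : ZA A} (hU : ∀ a, 0 ≤ U.coeff a)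
    (hV : ∀ a, 0 ≤ V.coeff a) (T : Finset A) (hT : ∀ x ∈ T, U.coeff x = 1) (a : A) :
    (#{x ∈ T | V.coeff (x - a) ≠ 0} : ℤ) ≤ ∑ x, U.coeff x * V.coeff (x - a) := by
  rw [card_eq_sum_ones, Nat.cast_sum]
  refine le_trans (sum_le_sum fun x hx => ?_) (sum_le_sum_of_subset_of_nonneg (subset_univ _)
    fun x _ _ => mul_nonneg (hU x) (hV _))
  obtain ⟨h1, h2⟩ := mem_filter.1 hx
  have := hV (x - a)
  rw [hT x h1, one_mul]
  push_cast
  omega

theorem p_GD (hnPLO : Nh.S_PLO) (hnPHI : Nh.S_PHI) (hG01 : S_G01) (hGT : S_GT) (hGNW : S_GNW) :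
    S_GD := by
  intro n hn
  obtain ⟨p1, H1⟩ := hnPLO (n + 1) (10 * (n + 1)) (by omega)
  obtain ⟨p2, H2⟩ := hnPHI (n + 1) 10 (by omega)
  obtain ⟨q0, H3⟩ := hGT n hn
  refine ⟨2 ^ (2 * n + 1) + 4 * n, p1 + p2 + q0, le_add_right (Nat.pow_le_pow_right two_pos
    (by omega)), fun F E _ _ _ _ _ K e σ Λ _ hp gb fb il => ?_⟩
  have hq : ringChar F ≤ Fintype.card F :=
    Nat.le_of_dvd Fintype.card_pos ((ringChar.spec F _).1 (FiniteField.cast_card_eq_zero F))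
  have lo := H1 F E K σ (by omega) gb fb
  have hi := H2 F E K e σ (by omega) gb fb il.e1 il.e2
  obtain ⟨g0, g1, g2⟩ := hG01 _ E K e n σ _ Λ gb fb il
  obtain ⟨n1, n2⟩ := hGNW _ E K e n σ _ Λ gb fb il lo hi
  have hT := H3 _ E K e σ _ Λ (by omega) gb fb il (by nlinarith [lo n hn.ne'])
    fun m hm => by have := hi m hm; omega
  have up : ∀ j, (2 : ℤ) ^ (2 * n + 1) * (Fintype.card F : ℤ) ^ j ≤
      ((2 ^ (2 * n + 1) + 4 * n : ℕ) : ℤ) * (Fintype.card F : ℤ) ^ j := fun j =>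
    mul_le_mul_of_nonneg_right (by push_cast; exact le_add_of_nonneg_right (by positivity))
      (by positivity)
  refine ⟨fun j hj => (g0 j hj).trans (up j), fun j hj b hb => (g1 j hj b hb).trans (up j),
    ⟨_, hT.trans (Nat.mul_le_mul_right _ (Nat.le_add_left _ _)), fun x hx => (mem_filter.1 hx).2.1,
      fun j h0 hj a ha => ?_⟩, n1, n2⟩
  have key := mul_le_mul_of_nonneg_left (ogd_cnt (Λ.nn n) (Λ.nn j)
    {x | (Λ.W n).coeff x = 1 ∧ ∀ j, 0 < j → j < n →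
      ∀ a, (Λ.W (n - j)).coeff a = 0 ∨ (Λ.W j).coeff (x - a) = 0}
    (fun x hx => (mem_filter.1 hx).2.1) a) (Nat.cast_nonneg (Fintype.card F))
  rcases hj.eq_or_lt with rfl | hj
  · have := (g1 j le_rfl (-a) (neg_ne_zero.2 (ha rfl))).trans (up j)
    simp only [← sub_eq_add_neg] at this
    exact_mod_cast key.trans this
  · by_cases h : (Λ.W (n - j)).coeff a = 0
    · exact_mod_cast key.trans ((g2 j hj a h).trans (up j))
    · rw [filter_eq_empty_iff.2 fun x hx => not_not.2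
        (((mem_filter.1 hx).2.2 j h0 hj a).resolve_left h)]
      simp

end

section

lemma olo_pow {q o n e : ℕ} {ε : ℝ} (hq : 1 ≤ q) (he : 1 ≤ ε * e)
    (h : (q : ℝ) ^ (((n + 1 : ℕ) : ℝ) - 1 + ε) ≤ o) : q ^ (n * e + 1) ≤ o ^ e := by
  have h1 : (1 : ℝ) ≤ q := by exact_mod_cast hq
  have h2 : (q : ℝ) ^ (n * e + 1) ≤ ((q : ℝ) ^ (((n + 1 : ℕ) : ℝ) - 1 + ε)) ^ e := by
    rw [← Real.rpow_natCast, ← Real.rpow_natCast, ← Real.rpow_mul (by linarith)]
    refine Real.rpow_le_rpow_of_exponent_le h1 ?_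
    push_cast
    linarith
  exact_mod_cast h2.trans (pow_le_pow_left₀ (by positivity) h e)

theorem p_LO (hnTWO : Nh.S_TWO) (hnFIN : Nh.S_FIN) (hADD : S_ADD) (hGD : S_GD) :
    S_LO := by
  intro g ε hg hε
  obtain ⟨n, rfl⟩ : ∃ n, g = n + 1 := ⟨g - 1, by omega⟩
  obtain ⟨p1, H1⟩ := hnTWO n (by omega)
  obtain ⟨C0, p2, H2⟩ := hnFIN n (by omega)
  obtain ⟨c, p3, hc, H4⟩ := hGD n (by omega)
  obtain ⟨e0, he0⟩ := exists_nat_ge ε⁻¹
  have he : 1 ≤ ε * e0 := by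
    have := mul_le_mul_of_nonneg_left he0 hε.le
    rwa [mul_inv_cancel₀ hε.ne'] at this
  obtain ⟨q0, H3⟩ := hADD c n e0 C0 (by omega)
  refine ⟨p1 + p2 + p3 + q0, fun F E E' _ _ _ _ _ _ C D hp g1 g2 cy ho hN hS => ?_⟩
  obtain ⟨e, e', d, d', hH⟩ := hS
  obtain ⟨_, _, σ, σ', K, K', _, _, Λ, Λ', T⟩ := H1 F E E' C D e e' (by omega) g1 g2 hN d d' hH
  have hq : ringChar F ≤ Fintype.card F :=
    Nat.le_of_dvd Fintype.card_pos ((ringChar.spec F _).1 (FiniteField.cast_card_eq_zero F))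
  obtain ⟨a, pr, ha⟩ := FiniteField.card F (ringChar F)
  have hb := T.big cy 0 fun l hl _ => hl.pos
  obtain ⟨θ, hθ⟩ := H3 _ (ringChar F) (J σ) (J σ') Λ Λ' (by omega)
    ⟨hb.cyc, hb.nt, hb.le.trans (Nat.mul_le_mul_right _ hc), hb.pr⟩
    (H4 F E K e.1 σ Λ (by omega) T.gb T.fb T.il)
    (H4 F E' K' e'.1 σ' Λ' (by omega) T.gb' T.fb' T.il')
    ⟨pr, ⟨a, ha⟩, T.h ▸ olo_pow Fintype.card_pos he ho⟩ T.card T.eq
  exact H2 F E E' C D e e' σ σ' K K' Λ Λ' (by omega) g1 g2 (hN 1 one_pos) T θ 0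
    (by convert hθ; rw [add_zero])

end

end Pool.Agent.P.MP_9344a7_nt.Od
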