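import Pool.Agent.P.MP_9344a7_nt.Od.M1
import Pool.Agent.P.MP_9344a7_nt.Od.M2
import Pool.Agent.P.MP_9344a7_nt.Od.M3
import Pool.Agent.P.MP_9344a7_nt.Od.M4
import Pool.Agent.P.MP_9344a7_nt.Od.M5
import Pool.Agent.P.MP_9344a7_nt.Nh.All1

/-! The assembly of the steps. -/

namespace Pool.Agent.P.MP_9344a7_nt.Od

theorem a_PK2 : S_PK2 := p_PK2
theorem a_TAU : S_TAU := p_TAU
theorem a_KRO : S_KRO := p_KRO Hy.a_KER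
theorem a_OR : S_OR := p_OR Hy.a_KER
theorem a_PER : S_PER := p_PER
theorem a_COS : S_COS := p_COS
theorem a_CVR : S_CVR := p_CVR a_TAU a_KRO a_OR a_PER a_COS
theorem a_PAR : S_PAR := p_PAR Hy.a_SML
theorem a_LF2 : S_LF2 := p_LF2 Hy.a_ENE Hy.a_KER Hy.a_CAS Hy.a_MAH
theorem a_FEB : S_FEB := p_FEB Hy.a_LB
theorem a_NSP : S_NSP := p_NSP Hy.a_SML Hy.a_KER a_PK2 a_CVR a_PAR a_LF2 a_FEB
theorem a_FER : S_FER := p_FER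
theorem a_EQL : S_EQL := p_EQL Hy.a_MIN a_FER
theorem a_RDA : S_RDA := p_RDA Hy.a_SML a_PK2
theorem a_MTW : S_MTW := p_MTW Hy.a_AV a_PK2
theorem a_RDB : S_RDB := p_RDB Hy.a_SML a_MTW
theorem a_NPT : S_NPT := p_NPT
theorem a_RD3 : S_RD3 := p_RD3 a_NPT
theorem a_RED : S_RED := p_RED a_RDA a_RDB a_RD3
theorem a_ADD : S_ADD := p_ADD Hy.a_AV Hy.a_KER Hy.a_LB Hy.a_TP Nh.a_MT2 a_NSP a_EQL a_RED
theorem a_PW : S_PW := p_PW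
theorem a_G01 : S_G01 := p_G01 a_PW
theorem a_GT : S_GT := p_GT a_PW a_G01
theorem a_GNW : S_GNW := p_GNW Hy.a_FE
theorem a_GD : S_GD := p_GD Nh.a_PLO Nh.a_PHI a_G01 a_GT a_GNW
theorem a_LO : S_LO := p_LO Nh.a_TWO Nh.a_FIN a_ADD a_GD

end Pool.Agent.P.MP_9344a7_nt.Od
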