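import Pool.Agent.P.MP_9344a7_nt.Hy.Base

/-! The data of an arbitrary curve, and primes of large order. -/

namespace Pool.Agent.P.MP_9344a7_nt.Od

open Polynomial Finset
open Pool.Agent.P.MP_9344a7_nt.R
open Pool.Agent.P.MP_9344a7_nt.Hy
open scoped Classical ComplexConjugate

/-- The functional equation in degree `μ`. -/
structure Fe (q μ : ℕ) (M : ℂ[X]) : Prop where
  c0 : M.coeff 0 = 1
  deg : M.natDegree = μ
  eq : ∀ i j, i + j = μ → q ^ j * M.coeff i = M.coeff μ * conj (M.coeff j)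

variable {A : Type} [AddCommGroup A] [Fintype A]

/-- An element that kills the common kernel of the faithful characters. -/
structure Kp (P : ZA A) : Prop where
  c0 : P.coeff 0 = 1
  sz : sz P ≤ om A
  ker : ∀ x, (∀ ψ ∈ Fa A, ev ψ x = 0) → P * x = 0
  ne : ∀ ψ ∈ Fa A, ev ψ P ≠ 0

variable (A) in
/-- `q` is a power of the prime `p`, which has large order modulo the order of the group. -/
structure Lo (q p n e : ℕ) : Prop where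
  pr : p.Prime
  pw : ∃ a, q = p ^ a
  le : q ^ (n * e + 1) ≤ orderOf (p : ZMod (Nat.card A)) ^ e

/-- The data of an arbitrary curve. -/
structure GD {q n : ℕ} (Λ : LD q n A) (c : ℕ) : Prop where
  e0 : ∀ j ≤ n, ∑ a, (Λ.W j).coeff a ^ 2 ≤ c * q ^ j
  e1 : ∀ j ≤ n, ∀ b, b ≠ 0 → q * ∑ a, (Λ.W j).coeff a * (Λ.W j).coeff (a + b) ≤ c * q ^ j
  pr : ∃ T : Finset A, q ^ n ≤ c * #T ∧ (∀ x ∈ T, (Λ.W n).coeff x = 1) ∧
    ∀ j, 0 < j → j ≤ n → ∀ a, (j = n → a ≠ 0) →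
      q * #{x ∈ T | (Λ.W j).coeff (x - a) ≠ 0} ≤ c * q ^ j
  nw : ∀ χ : AddChar A ℂ, ∃ s, Newt (fun j => ev χ (Λ.W j)) s ∧
    ∀ m, m ≠ 0 → 10 * ‖s m‖ ≤ 11 * q ^ m
  ms : 9 * (q : ℝ) ^ (n + 1) ≤ 10 * ‖ev (0 : AddChar A ℂ) (Λ.W (n + 1))‖

lemma cnt_pair {W : ZA A} (h : ∀ a, 0 ≤ W.coeff a) (b : A) :
    (#{a | W.coeff a ≠ 0 ∧ W.coeff (a + b) ≠ 0} : ℤ) ≤ ∑ a, W.coeff a * W.coeff (a + b) := by
  rw [card_filter, Nat.cast_sum]
  refine sum_le_sum fun a _ => ?_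
  have h1 := h a
  have h2 := h (a + b)
  split_ifs with e
  · exact mul_pos (lt_of_le_of_ne h1 e.1.symm) (lt_of_le_of_ne h2 e.2.symm)
  · exact mul_nonneg h1 h2

lemma GD.pair {q n c : ℕ} {Λ : LD q n A} (h : GD Λ c) {j : ℕ} (hj : j ≤ n) {b : A} (hb : b ≠ 0) :
    q * #{a | (Λ.W j).coeff a ≠ 0 ∧ (Λ.W j).coeff (a + b) ≠ 0} ≤ c * q ^ j := by
  have := (mul_le_mul_of_nonneg_left (cnt_pair (Λ.nn j) b) (Nat.cast_nonneg q)).trans
    (h.e1 j hj b hb)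
  exact_mod_cast this

lemma Kp.eq {P x y : ZA A} (h : Kp P) (e : ∀ ψ ∈ Fa A, ev ψ x = ev ψ y) : P * x = P * y := by
  rw [← sub_eq_zero, ← mul_sub]
  exact h.ker _ fun ψ hψ => by rw [map_sub, e ψ hψ, sub_self]

lemma mul_ne {x y : ZA A} {b : A} (h : (x * y).coeff b ≠ 0) :
    ∃ a, x.coeff a ≠ 0 ∧ y.coeff (b - a) ≠ 0 := by
  rw [Hy.coeff_mul] at h
  obtain ⟨a, -, e⟩ := exists_ne_zero_of_sum_ne_zero h
  exact ⟨a, left_ne_zero_of_mul e, right_ne_zero_of_mul e⟩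

end Pool.Agent.P.MP_9344a7_nt.Od
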