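import Pool.Agent.P.MP_9344a7_nt.Od.Base
import Pool.Agent.P.MP_9344a7_nt.Nh.Iface

/-!
The intermediate statements for a characteristic of large order modulo the class number.
-/

namespace Pool.Agent.P.MP_9344a7_nt.Od

open Polynomial Finset
open Pool.Agent.P.MP_6f117a_ag (Place FF)
open Pool.Agent.P.MP_ab3ecb_nt.Inv (Dv deg SA LS)
open Pool.Agent.P.MP_9344a7_nt.R
open Pool.Agent.P.MP_9344a7_nt.Hy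
open scoped Classical ComplexConjugate

/-! ### Tools -/

-- deps:
def S_TAU : Prop := ∀ c g K e : ℕ, ∃ q0 : ℕ, ∀ q h : ℕ, q0 ≤ q → h ≠ 0 → h ≤ c * q ^ g →
  2 ^ h.primeFactors.card ≤ #h.divisors ∧ K * #h.divisors ^ e ≤ q

-- imports: Pool.Agent.P.MP_9344a7_nt.Hy.M1
-- deps:
def S_PK2 : Prop := ∀ (A : Type) [AddCommGroup A] [Fintype A], IsAddCyclic A →
  ∃ P : ZA A, Kp P ∧ ∀ l : ℕ, l.Prime → l ∣ Nat.card A →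
    ∃ g : A, l • g = 0 ∧ ∀ b, P.coeff b ≠ 0 → ∃ u, b = l • u ∨ b = g + l • u

-- imports: Pool.Agent.P.MP_9344a7_nt.Hy.M4
-- deps: Hy.KER
def S_KRO : Prop := ∀ (A : Type) [AddCommGroup A] [Fintype A], ∀ χ ∈ Fa A,
  ∀ (x : ZA A) (p a : ℕ), p.Prime → p.Coprime (Nat.card A) → ev χ x * conj (ev χ x) = p ^ a →
    ∃ (t : A) (ε : ℤ), (ε = 1 ∨ ε = -1) ∧
      ev χ (pu (nsmulAddMonoidHom p) x) = ε * χ t * ev χ x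

-- deps: Hy.KER
def S_OR : Prop := ∀ (A : Type) [AddCommGroup A] [Fintype A] (P : ZA A), Kp P → ∀ χ ∈ Fa A,
  ∀ (y : ZA A) (p : ℕ) (t : A) (ε : ℤ), p.Coprime (Nat.card A) → (ε = 1 ∨ ε = -1) →
  ev χ (pu (nsmulAddMonoidHom p) y) = ε * χ t * ev χ y → ∀ a, (P * y).coeff a ≠ 0 →
    ∃ (b : A) (k : ℕ), P.coeff b ≠ 0 ∧ 0 < k ∧ k ≤ om A * sz y ∧
      (fun x : A => p • x - t)^[k] (a - b) = a - b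

-- deps:
def S_PER : Prop := ∀ (A : Type) [AddCommGroup A] [Fintype A], IsAddCyclic A →
  ∀ (p : ℕ) (t : A) (l : ℕ), 0 < l → ∃ (z : ℕ → A) (H : ℕ → AddSubgroup A),
    (∀ d, Nat.card (H d) * orderOf (p : ZMod (Nat.card A)) ≤ Nat.card A * l) ∧
      ∀ (a : A) (k : ℕ), 0 < k → k ≤ l → (fun x : A => p • x - t)^[k] a = a →
        ∃ d ∈ (Nat.card A).divisors, a - z d ∈ H d

-- deps:
def S_COS : Prop := ∀ (A : Type) [AddCommGroup A] [Fintype A] (W : ZA A) (q U V : ℕ),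
  (∀ a, 0 ≤ W.coeff a) → ∑ a, W.coeff a ^ 2 ≤ U →
  (∀ b, b ≠ 0 → q * ∑ a, W.coeff a * W.coeff (a + b) ≤ V) →
  ∀ (H : AddSubgroup A) (Z T : Finset A), (∀ x ∈ T, W.coeff x ≠ 0 ∧ ∃ z ∈ Z, x - z ∈ H) →
    q * #T ^ 2 ≤ #Z * (q * U + Nat.card H * V)

/-! ### The L-polynomial of a faithful character has no stable factor -/

-- deps: TAU KRO OR PER COS
def S_CVR : Prop := ∀ c n e K E : ℕ, ∃ q0 : ℕ, ∀ (q p : ℕ) (A : Type) [AddCommGroup A] [Fintype A]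
  (Λ : LD q n A) (P : ZA A), q0 ≤ q → Big A c q n 0 → GD Λ c → Kp P → Lo A q p n e → ∀ χ ∈ Fa A,
  ∀ (y w : ZA A) (μ : ℕ), 0 < μ → μ ≤ n → ev χ y * conj (ev χ y) = q ^ μ →
  sz y ≤ K * om A * q ^ μ → sz w ≤ K * om A * q ^ (n - μ) →
    E * #{x | (Λ.W n).coeff x ≠ 0 ∧ (P * (y * w)).coeff x ≠ 0} ≤ q ^ n

-- imports: Pool.Agent.P.MP_9344a7_nt.Hy.M3
-- deps: Hy.SML
def S_PAR : Prop := ∀ c n K : ℕ, 0 < n → ∃ E q0 : ℕ, ∀ (q : ℕ) (A : Type) [AddCommGroup A]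
  [Fintype A] (Λ : LD q n A) (P : ZA A) (G G' : ℕ → ZA A), q0 ≤ q → Big A c q n 0 → GD Λ c →
  Kp P → G 0 = 1 → (∀ j, sz (G j) ≤ K * om A * q ^ j) → (∀ j, sz (G' j) ≤ K * om A * q ^ j) →
  (∀ ψ ∈ Fa A, ∀ k ≤ n, ev ψ (Λ.W k) = ∑ i ∈ range (k + 1), ev ψ (G i) * ev ψ (G' (k - i))) →
    q ^ n < E * #{x | (Λ.W n).coeff x ≠ 0 ∧ (P * G n).coeff x ≠ 0} ∨
      q ^ n < E * #{x | (Λ.W n).coeff x ≠ 0 ∧ (P * G' n).coeff x ≠ 0}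

-- imports: Pool.Agent.P.MP_9344a7_nt.Hy.M3
-- deps: Hy.ENE Hy.KER Hy.CAS Hy.MAH
def S_LF2 : Prop := ∀ c n : ℕ, ∃ K : ℕ, ∀ (q : ℕ) (A : Type) [AddCommGroup A] [Fintype A]
  (Λ : LD q n A), Big A c q n 0 → om A ≤ q → GD Λ c → ∀ χ ∈ Fa A, ∀ M : ℂ[X], Zc χ M →
  M.coeff 0 = 1 → M ∣ Λ.L χ → ∃ G : ℕ → ZA A, G 0 = 1 ∧ (∀ j, ev χ (G j) = M.coeff j) ∧
    ∀ j, sz (G j) ≤ K * om A * q ^ j

-- deps: Hy.LB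
def S_FEB : Prop := (∀ (q n : ℕ) (A : Type) [AddCommGroup A] [Fintype A] (Λ : LD q n A), 0 < q →
  ∀ χ : AddChar A ℂ, χ ≠ 0 → Fe q (2 * n) (Λ.L χ) ∧ (Λ.L χ).coeff (2 * n) = q ^ n * χ Λ.ω) ∧
  ∀ (q D μ : ℕ) (M B : ℂ[X]), 0 < q → Fe q D (M * B) → Fe q μ M →
    μ ≤ D ∧ Fe q (D - μ) B ∧ (M * B).coeff D = M.coeff μ * B.coeff (D - μ)

-- imports: Pool.Agent.P.MP_9344a7_nt.Hy.M4
-- deps:
def S_FER : Prop := ∀ (q : ℕ) (ρ : Multiset ℂ), 0 < q → (∀ r ∈ ρ, r ≠ 0) →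
  ρ.map (fun r : ℂ => q / conj r) = ρ → Fe q ρ.card (ofR ρ)

-- deps: Hy.SML Hy.KER PK2 CVR PAR LF2 FEB
def S_NSP : Prop := ∀ c n e : ℕ, 0 < n → ∃ q0 : ℕ, ∀ (q p : ℕ) (A : Type) [AddCommGroup A]
  [Fintype A] (Λ : LD q n A), q0 ≤ q → Big A c q n 0 → GD Λ c → Lo A q p n e → ∀ χ ∈ Fa A,
  ∀ (M : ℂ[X]) (μ : ℕ), Zc χ M → M ∣ Λ.L χ → Fe q μ M → μ = 0 ∨ μ = 2 * n

-- imports: Pool.Agent.P.MP_9344a7_nt.Hy.M4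
-- deps: Hy.MIN FER
def S_EQL : Prop := ∀ (A : Type) [AddCommGroup A] [Fintype A], ∀ χ ∈ Fa A,
  ∀ (q D : ℕ) (L L' : ℂ[X]), 0 < q → Zc χ L → Zc χ L' → L.coeff 0 = 1 → L'.coeff 0 = 1 →
  L.natDegree = D → L'.natDegree = D → Sg q L → Sg q L' →
  (∀ (M : ℂ[X]) (μ : ℕ), Zc χ M → M ∣ L → Fe q μ M → μ = 0 ∨ μ = D) →
    ∀ α, L.eval α = 0 → L'.eval α = 0 → L = L'

/-! ### The second character is faithful -/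

-- deps: Hy.SML PK2
def S_RDA : Prop := ∀ c n E : ℕ, ∃ q0 : ℕ, ∀ (q : ℕ) (A : Type) [AddCommGroup A] [Fintype A]
  (Λ : LD q n A), q0 ≤ q → Big A c q n 0 → GD Λ c → ∀ l : ℕ, l.Prime → l ∣ Nat.card A →
  (l ≠ 2 ∨ 4 ∣ Nat.card A) → ∀ i ≤ n, ∀ y : ZA A, (∀ ψ ∈ Fa A, ev ψ (Λ.W i) = ev ψ y) →
  (∀ b, y.coeff b ≠ 0 → ∃ u, b = l • u) →
    E * #{a | (Λ.W i).coeff a ≠ 0 ∧ ¬ ∃ u, a = l • u} ≤ q ^ i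

-- deps: Hy.AV PK2
def S_MTW : Prop := ∀ (A : Type) [AddCommGroup A] [Fintype A], IsAddCyclic A →
  ∃ F : Finset A, #F ≤ om A ^ 2 ∧ ∀ x y : ZA A, (∀ a, 0 ≤ x.coeff a) → (∀ a, 0 ≤ y.coeff a) →
  (∀ ψ ∈ Fa A, ev ψ x = ev ψ y) → ∀ a, x.coeff a ≠ 0 → y.coeff a ≠ 0 ∨
    (∃ b ∈ F, b ≠ 0 ∧ x.coeff (a + b) ≠ 0) ∨
      ∃ b ∈ F, ∃ b' ∈ F, b ≠ b' ∧ y.coeff (a + b) ≠ 0 ∧ y.coeff (a + b') ≠ 0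

-- deps: Hy.SML MTW
def S_RDB : Prop := ∀ c n E : ℕ, ∃ q0 : ℕ, ∀ (q : ℕ) (A A' : Type) [AddCommGroup A] [Fintype A]
  [AddCommGroup A'] [Fintype A'] (Λ : LD q n A) (Λ' : LD q n A') (j : A' →+ A), q0 ≤ q →
  Big A c q n 0 → GD Λ c → GD Λ' c → Nat.card j.ker ≤ 2 → ∀ i ≤ n,
  (∀ ψ ∈ Fa A, ev ψ (Λ.W i) = ev ψ (pu j (Λ'.W i))) →
    E * #{a | (Λ.W i).coeff a ≠ 0 ∧ a ∉ j.range} ≤ q ^ i

-- deps: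
def S_NPT : Prop := ∀ n : ℕ, ∃ K : ℝ, 0 < K ∧ ∀ (a a' s s' : ℕ → ℂ) (x η : ℝ), 0 < x → 0 ≤ η →
  a 0 = 1 → a' 0 = 1 → Newt a s → Newt a' s' → (∀ m, m ≠ 0 → ‖s m‖ ≤ 2 * x ^ m) →
  (∀ m, m ≠ 0 → ‖s' m‖ ≤ 2 * x ^ m) → (∀ j ≤ n, ‖a j - a' j‖ ≤ η * x ^ j) →
    (∀ j, ‖a j‖ ≤ (2 * x) ^ j) ∧ (n + 1) * ‖a (n + 1) - a' (n + 1)‖ ≤
      ‖s (n + 1)‖ + ‖s' (n + 1)‖ + K * η * x ^ (n + 1)

-- deps: NPT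
def S_RD3 : Prop := ∀ c n : ℕ, 2 ≤ n → ∃ E q0 : ℕ, ∀ (q : ℕ) (A : Type) [AddCommGroup A]
  [Fintype A] (Λ : LD q n A), q0 ≤ q → GD Λ c → ∀ ε : AddChar A ℂ, ε ≠ 0 →
    ∃ i ≤ n, q ^ i < E * #{a | (Λ.W i).coeff a ≠ 0 ∧ ε a ≠ 1}

-- deps: RDA RDB RD3
def S_RED : Prop := ∀ c n : ℕ, 2 ≤ n → ∃ q0 : ℕ, ∀ (q : ℕ) (A A' : Type) [AddCommGroup A]
  [Fintype A] [AddCommGroup A'] [Fintype A'] (Λ : LD q n A) (Λ' : LD q n A') (j : A' →+ A),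
  q0 ≤ q → Big A c q n 0 → GD Λ c → GD Λ' c → Nat.card A' = Nat.card A →
  (∀ ψ ∈ Fa A, ∀ i ≤ n, ev ψ (Λ.W i) = ev ψ (pu j (Λ'.W i))) → Function.Bijective j

-- deps: Hy.AV Hy.KER Hy.LB Hy.TP Nh.MT2 NSP EQL RED
def S_ADD : Prop := ∀ c n e C0 : ℕ, 2 ≤ n → ∃ q0 : ℕ, ∀ (q p : ℕ) (A A' : Type) [AddCommGroup A]
  [Fintype A] [AddCommGroup A'] [Fintype A'] (Λ : LD q n A) (Λ' : LD q n A'), q0 ≤ q →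
  Big A c q n 0 → GD Λ c → GD Λ' c → Lo A q p n e → #Λ.S = #Λ'.S →
  ∏ χ ∈ univ.erase 0, Λ.L χ = ∏ χ ∈ univ.erase 0, Λ'.L χ →
    ∃ θ : A ≃+ A', C0 * #{s ∈ Λ.S | θ s ∉ Λ'.S} ≤ q

/-! ### Curves -/

-- imports: Pool.Agent.P.MP_9344a7_nt.Hy.M8
-- deps:
def S_PW : Prop := ∀ (k E : Type) [Field k] [Field E] [Algebra k E] [IsAlgClosed k] [FF k E]
  (K e : Pic k E) (n : ℕ) (σ : SA k E) (Q : ℕ) (Λ : LD Q n (J σ)) [Fintype (J σ)], GB K (n + 1) →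
  FB σ Q → IsL σ K e Λ →
  (∀ i j b, Q * ∑ a, (Λ.W i).coeff a * (Λ.W j).coeff (b - a) ≤
    2 ^ (i + j + 1) * Q ^ ll (b.1 + (i + j) • e)) ∧
  (∀ j ≤ n, ∀ a, Q ^ (n - j) * (Λ.W j).coeff a ≤ (Λ.W (2 * n - j)).coeff (Λ.ω - a)) ∧
    ∀ j a, ((Λ.W j).coeff a = 0 ↔ ll (a.1 + j • e) = 0) ∧
      ((Λ.W j).coeff a = 1 ↔ ll (a.1 + j • e) = 1) ∧
      ((Λ.W j).coeff a ≤ 1 ∨ Q ≤ (Λ.W j).coeff a)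

-- deps: PW
def S_G01 : Prop := ∀ (k E : Type) [Field k] [Field E] [Algebra k E] [IsAlgClosed k] [FF k E]
  (K e : Pic k E) (n : ℕ) (σ : SA k E) (Q : ℕ) (Λ : LD Q n (J σ)) [Fintype (J σ)], GB K (n + 1) →
  FB σ Q → IsL σ K e Λ → (∀ j ≤ n, ∑ a, (Λ.W j).coeff a ^ 2 ≤ 2 ^ (2 * n + 1) * Q ^ j) ∧
    (∀ j ≤ n, ∀ b, b ≠ 0 →
      Q * ∑ a, (Λ.W j).coeff a * (Λ.W j).coeff (a + b) ≤ 2 ^ (2 * n + 1) * Q ^ j) ∧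
    ∀ j < n, ∀ a, (Λ.W (n - j)).coeff a = 0 →
      Q * ∑ x, (Λ.W n).coeff x * (Λ.W j).coeff (x - a) ≤ 2 ^ (2 * n + 1) * Q ^ j

-- imports: Pool.Agent.P.MP_9344a7_nt.Hy.M9
-- deps: PW G01
def S_GT : Prop := ∀ n : ℕ, 0 < n → ∃ q0 : ℕ, ∀ (k E : Type) [Field k] [Field E] [Algebra k E]
  [IsAlgClosed k] [FF k E] (K e : Pic k E) (σ : SA k E) (Q : ℕ) (Λ : LD Q n (J σ))
  [Fintype (J σ)], q0 ≤ Q → GB K (n + 1) → FB σ Q → IsL σ K e Λ → 3 * Q ^ n ≤ 4 * #(fx σ n) →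
  (∀ m, m ≠ 0 → #(fx σ m) ≤ 2 * Q ^ m) → Q ^ n ≤ 4 * n * #{x | (Λ.W n).coeff x = 1 ∧
    ∀ j, 0 < j → j < n → ∀ a, (Λ.W (n - j)).coeff a = 0 ∨ (Λ.W j).coeff (x - a) = 0}

-- imports: Pool.Agent.P.MP_9344a7_nt.Hy.M7
-- deps: Hy.FE
def S_GNW : Prop := ∀ (k E : Type) [Field k] [Field E] [Algebra k E] [IsAlgClosed k] [FF k E]
  (K e : Pic k E) (n : ℕ) (σ : SA k E) (Q : ℕ) (Λ : LD Q n (J σ)) [Fintype (J σ)], GB K (n + 1) →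
  FB σ Q → IsL σ K e Λ → (∀ m, m ≠ 0 → 10 * (n + 1) * Q ^ m ≤ (10 * (n + 1) + 1) * #(fx σ m)) →
  (∀ m, m ≠ 0 → 10 * #(fx σ m) ≤ (10 + 1) * Q ^ m) →
  (∀ χ : AddChar (J σ) ℂ, ∃ s, Newt (fun j => ev χ (Λ.W j)) s ∧
    ∀ m, m ≠ 0 → 10 * ‖s m‖ ≤ 11 * Q ^ m) ∧
    9 * (Q : ℝ) ^ (n + 1) ≤ 10 * ‖ev (0 : AddChar (J σ) ℂ) (Λ.W (n + 1))‖

-- deps: Nh.PLO Nh.PHI G01 GT GNW
def S_GD : Prop := ∀ n : ℕ, 0 < n → ∃ c p0 : ℕ, 2 ^ (n + 1) ≤ c ∧ ∀ (F E : Type) [Field F]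
  [Fintype F] [Field E] [Algebra (AlgebraicClosure F) E] [FF (AlgebraicClosure F) E]
  (K e : Pic (AlgebraicClosure F) E) (σ : SA (AlgebraicClosure F) E)
  (Λ : LD (Fintype.card F) n (J σ)) [Fintype (J σ)], p0 < ringChar F → GB K (n + 1) →
  FB σ (Fintype.card F) → IsL σ K e Λ → GD Λ c

-- deps: Nh.TWO Nh.FIN ADD GD
def S_LO : Prop := ∀ (g : ℕ) (ε : ℝ), 3 ≤ g → 0 < ε → ∃ p0 : ℕ, ∀ (F E E' : Type) [Field F]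
  [Fintype F] [Field E] [Algebra (AlgebraicClosure F) E] [Field E']
  [Algebra (AlgebraicClosure F) E'] (C : Curve F E) (D : Curve F E'), p0 < ringChar F →
  Genus (AlgebraicClosure F) E g → Genus (AlgebraicClosure F) E' g → C.CyclicJ →
  (Fintype.card F : ℝ) ^ (g - 1 + ε) ≤ orderOf (ringChar F : ZMod C.h) →
  (∀ m, 0 < m → C.pts m = D.pts m) → C.SameH D → C.Conj D

end Pool.Agent.P.MP_9344a7_nt.Od
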