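import Pool.Agent.P.MP_9344a7_nt.Od.Iface
import Pool.Agent.P.MP_9344a7_nt.Hy.M1
import Pool.Agent.P.MP_9344a7_nt.Hy.M4

/-! Steps TAU, PK2, KRO, OR, PER, COS. -/

set_option linter.unusedSectionVars false
set_option linter.unusedVariables false

namespace Pool.Agent.P.MP_9344a7_nt.Od

open Polynomial Finset
open Pool.Agent.P.MP_6f117a_ag (Place FF)
open Pool.Agent.P.MP_ab3ecb_nt.Inv (Dv deg SA LS)
open Pool.Agent.P.MP_9344a7_nt.R
open Pool.Agent.P.MP_9344a7_nt.Hy
open scoped Classical ComplexConjugate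

section

lemma otau_one (k a l : ℕ) (hl : 2 ≤ l) :
    (a + 1) ^ k ≤ (if l < 2 ^ k then k.factorial * 2 ^ k else 1) * l ^ a := by
  split_ifs with h
  · calc (a + 1) ^ k ≤ (a + 1).ascFactorial k := Nat.pow_succ_le_ascFactorial _ _
      _ = k.factorial * (a + k).choose k := Nat.ascFactorial_eq_factorial_mul_choose _ _
      _ ≤ k.factorial * 2 ^ (a + k) := Nat.mul_le_mul_left _ (Nat.choose_le_two_pow _ _)
      _ = k.factorial * 2 ^ k * 2 ^ a := by ring
      _ ≤ _ := Nat.mul_le_mul_left _ (Nat.pow_le_pow_left hl _)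
  · calc (a + 1) ^ k ≤ (2 ^ a) ^ k := Nat.pow_le_pow_left Nat.lt_two_pow_self _
      _ = (2 ^ k) ^ a := by rw [← pow_mul, ← pow_mul, mul_comm]
      _ ≤ l ^ a := Nat.pow_le_pow_left (not_lt.1 h) _
      _ = _ := (one_mul _).symm

lemma otau_pow (k h : ℕ) (h0 : h ≠ 0) :
    #h.divisors ^ k ≤ (k.factorial * 2 ^ k) ^ 2 ^ k * h := by
  have h1 : ∏ l ∈ h.primeFactors, l ^ h.factorization l = h :=
    Nat.prod_factorization_pow_eq_self h0
  rw [Nat.card_divisors h0, ← prod_pow]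
  refine (prod_le_prod' fun l hl =>
    otau_one k _ l (Nat.prime_of_mem_primeFactors hl).two_le).trans ?_
  rw [prod_mul_distrib, h1, ← prod_filter, prod_const]
  refine Nat.mul_le_mul_right _ (Nat.pow_le_pow_right (by positivity) ?_)
  exact (card_le_card fun l hl => mem_range.2 (mem_filter.1 hl).2).trans (card_range _).le

theorem p_TAU :
    S_TAU := by
  intro c g K e
  obtain ⟨C, hC⟩ : ∃ C, ∀ h : ℕ, h ≠ 0 → #h.divisors ^ (e * (g + 1)) ≤ C * h :=
    ⟨_, otau_pow _⟩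
  refine ⟨K ^ (g + 1) * (C * c), fun q h a1 a2 a3 => ⟨?_, ?_⟩⟩
  · rw [Nat.card_divisors a2, ← prod_const]
    exact prod_le_prod' fun l hl => Nat.succ_le_succ
      ((Nat.prime_of_mem_primeFactors hl).factorization_pos_of_dvd a2 (Nat.dvd_of_mem_primeFactors hl))
  have a4 := hC h a2
  rw [pow_mul] at a4
  generalize #h.divisors ^ e = ρ at *
  refine le_of_pow_le_pow_left₀ (n := g + 1) (by omega) (Nat.zero_le _) ?_
  calc (K * ρ) ^ (g + 1) = K ^ (g + 1) * ρ ^ (g + 1) := mul_pow _ _ _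
    _ ≤ K ^ (g + 1) * (C * (c * q ^ g)) :=
        Nat.mul_le_mul_left _ (a4.trans (Nat.mul_le_mul_left _ a3))
    _ = K ^ (g + 1) * (C * c) * q ^ g := by ring
    _ ≤ q * q ^ g := Nat.mul_le_mul_right _ a1
    _ = q ^ (g + 1) := by ring

end

section

lemma opk2_div {A : Type} [AddCommGroup A] {m l : ℕ} (h : m.Coprime l) (h1 : 1 < l) {b : A}
    (hb : m • b = 0) : ∃ u, b = l • u := by
  obtain ⟨k, -, hk⟩ := Nat.exists_mul_mod_eq_one_of_coprime h h1
  refine ⟨-(((m * k) / l) • b), ?_⟩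
  have e : (m * k) • b = 0 := by rw [mul_nsmul, hb, nsmul_zero]
  rw [← Nat.div_add_mod (m * k) l, hk, add_nsmul, one_nsmul, mul_nsmul'] at e
  rw [smul_neg, eq_neg_iff_add_eq_zero, add_comm]
  exact e

theorem p_PK2 :
    S_PK2 := by
  intro A _ _ hA
  obtain ⟨g, hg⟩ := IsAddCyclic.exists_generator (α := A)
  have ho := addOrderOf_eq_card_of_forall_mem_zmultiples hg
  have h0 : 0 < Nat.card A := Nat.card_pos
  have hG : ∀ l ∈ (Nat.card A).primeFactors,
      l.Prime ∧ addOrderOf ((Nat.card A / l) • g) = l := fun l hl =>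
    ⟨Nat.prime_of_mem_primeFactors hl, by
      have hd := Nat.dvd_of_mem_primeFactors hl
      rw [← ho] at hd ⊢
      exact addOrderOf_nsmul_addOrderOf_sub (by omega) hd⟩
  obtain ⟨h1, h2, -⟩ := pk_prod (fun l => (Nat.card A / l) • g) (Nat.card A).primeFactors hG
  refine ⟨_, ⟨h1, h2, fun x hx => pk_zero fun ψ => ?_, fun ψ hψ => ?_⟩, fun l hl hd => ?_⟩
  · rw [map_mul]
    by_cases hψ : ψ ∈ Fa A
    · rw [hx ψ hψ, mul_zero]
    have hd : orderOf (ψ g) ∣ Nat.card A := orderOf_dvd_of_pow_eq_one (by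
      rw [← AddChar.map_nsmul_eq_pow, card_nsmul_eq_zero', AddChar.map_zero_eq_one])
    obtain ⟨m, hm⟩ := hd
    have hm1 : m ≠ 1 := by
      rintro rfl
      refine hψ (mem_Fa.2 (AddChar.injective_iff.2 fun a ha => ?_))
      obtain ⟨i, rfl⟩ := mem_multiples_iff_mem_zmultiples.2 (hg a)
      simp only at ha ⊢
      rw [AddChar.map_nsmul_eq_pow, ← orderOf_dvd_iff_pow_eq_one, ← mul_one (orderOf _),
        ← hm] at ha
      rwa [← addOrderOf_dvd_iff_nsmul_eq_zero, ho]
    obtain ⟨l, hl, r, rfl⟩ := Nat.exists_prime_and_dvd hm1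
    rw [map_prod, prod_eq_zero (i := l) (Nat.mem_primeFactors.2
      ⟨hl, ⟨orderOf (ψ g) * r, by rw [hm]; ring⟩, h0.ne'⟩), zero_mul]
    rw [map_sub, map_one, ev_single, AddChar.map_nsmul_eq_pow, hm, mul_left_comm,
      Nat.mul_div_cancel_left _ hl.pos, pow_mul, pow_orderOf_eq_one]
    simp
  · rw [map_prod, prod_ne_zero_iff]
    intro l hl e
    obtain ⟨hp, hol⟩ := hG l hl
    rw [map_sub, map_one, ev_single, sub_eq_zero, Int.cast_one, one_mul] at e
    have := AddChar.injective_iff.1 (mem_Fa.1 hψ) e.symm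
    rw [this, addOrderOf_zero] at hol
    exact hp.one_lt.ne hol
  · have hm : l ∈ (Nat.card A).primeFactors := Nat.mem_primeFactors.2 ⟨hl, hd, h0.ne'⟩
    refine ⟨(Nat.card A / l) • g, ?_, fun b hb => ?_⟩
    · rw [← addOrderOf_dvd_iff_nsmul_eq_zero, (hG l hm).2]
    obtain ⟨-, -, h3⟩ := pk_prod (fun l => (Nat.card A / l) • g)
      ((Nat.card A).primeFactors.erase l) fun x hx => hG x (mem_of_mem_erase hx)
    have hc : (∏ x ∈ (Nat.card A).primeFactors.erase l, x).Coprime l :=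
      Nat.Coprime.prod_left fun x hx => (Nat.coprime_primes
        (hG x (mem_of_mem_erase hx)).1 hl).2 (ne_of_mem_erase hx)
    rw [← mul_prod_erase _ _ hm, sub_mul, one_mul, AddMonoidAlgebra.coeff_sub, Finsupp.sub_apply,
      coeff_single_mul, one_mul] at hb
    by_cases e : (∏ x ∈ (Nat.card A).primeFactors.erase l,
        (1 - .single ((Nat.card A / x) • g) 1) : ZA A).coeff b = 0
    · obtain ⟨u, hu⟩ := opk2_div hc hl.one_lt
        (h3 (b - (Nat.card A / l) • g) fun e' => hb (by rw [e, e', sub_zero]))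
      exact ⟨u, Or.inr (by rw [← hu]; abel)⟩
    · obtain ⟨u, hu⟩ := opk2_div hc hl.one_lt (h3 b e)
      exact ⟨u, Or.inl hu⟩

end

section

lemma okro_frob {A : Type} [AddCommGroup A] {p : ℕ} (hp : p.Prime) (y : ZA A) :
    ∃ z, y ^ p = pu (nsmulAddMonoidHom p) y + p * z := by
  induction y using AddMonoidAlgebra.induction_linear with
  | zero => exact ⟨0, by simp [hp.ne_zero]⟩
  | add x y hx hy =>
    obtain ⟨a, ha⟩ := hx
    obtain ⟨b, hb⟩ := hy
    obtain ⟨r, hr⟩ := exists_add_pow_prime_eq hp x y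
    exact ⟨a + b + x * y * r, by rw [hr, ha, hb, map_add]; ring⟩
  | single a n =>
    have := Fact.mk hp
    obtain ⟨k, hk⟩ : (p : ℤ) ∣ n ^ p - n :=
      (ZMod.intCast_zmod_eq_zero_iff_dvd _ p).1 (by simp [ZMod.pow_card])
    refine ⟨.single (p • a) k, ?_⟩
    rw [AddMonoidAlgebra.single_pow, pu_single, ← nsmul_eq_mul, AddMonoidAlgebra.smul_single,
      nsmulAddMonoidHom_apply, ← AddMonoidAlgebra.single_add, nsmul_eq_mul, ← hk, add_sub_cancel]

lemma okro_ideal {O : Type} [CommRing O] [IsDedekindDomain O] (σ : O →+* O) {p a : ℕ}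
    (hp : p ≠ 0) (h : ∀ y, ∃ z, y ^ p = σ y + p * z) (I : Ideal O) :
    (p : O) ^ a ∈ I → I.map σ ≤ I := by
  induction I using UniqueFactorizationMonoid.induction_on_prime with
  | h₁ => exact fun _ => by simp
  | h₂ I hI => exact fun _ => by simp [Ideal.isUnit_iff.1 hI]
  | h₃ J P _ hP ih =>
    intro e
    rw [Ideal.map_mul]
    refine Ideal.mul_mono (Ideal.map_le_iff_le_comap.2 fun y hy => ?_) (ih (Ideal.mul_le_right e))
    obtain ⟨z, hz⟩ := h y
    rw [Ideal.mem_comap, eq_sub_of_add_eq hz.symm]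
    exact sub_mem (Ideal.pow_mem_of_mem _ hy _ (Nat.pos_of_ne_zero hp)) (Ideal.mul_mem_right _ _
      ((Ideal.isPrime_of_prime hP).mem_of_pow_mem _ (Ideal.mul_le_left e)))

lemma okro_root {K : Type} [Field K] [NumberField K] {n : ℕ} [NeZero n]
    [IsCyclotomicExtension {n} ℚ K] {ζ u : K} (hζ : IsPrimitiveRoot ζ n) {k : ℕ} (hk : 0 < k)
    (hu : u ^ k = 1) : ∃ r : ℕ, u = ζ ^ r ∨ u = -ζ ^ r := by
  have f : IsOfFinOrder u := isOfFinOrder_iff_pow_eq_one.2 ⟨k, hk, hu⟩
  rcases Nat.even_or_odd n with h | h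
  · have o := IsPrimitiveRoot.orderOf u
    have o0 := f.orderOf_pos
    have d := o.dvd_of_isCyclotomicExtension n o0.ne'
    have key := IsPrimitiveRoot.lcm_totient_le_finrank o hζ
      (cyclotomic.irreducible_rat (Nat.lcm_pos o0 (NeZero.pos n)))
    rw [IsCyclotomicExtension.finrank K (cyclotomic.irreducible_rat (NeZero.pos n))] at key
    obtain ⟨s, hs⟩ := Nat.dvd_lcm_right (orderOf u) n
    have d2 : s ∣ 2 := Nat.dvd_of_mul_dvd_mul_left (NeZero.pos n)
      (by rw [← hs, mul_comm]; exact Nat.lcm_dvd d (dvd_mul_left _ _))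
    rcases (Nat.dvd_prime Nat.prime_two).1 d2 with rfl | rfl
    · obtain ⟨i, -, e⟩ := hζ.eq_pow_of_pow_eq_one (orderOf_dvd_iff_pow_eq_one.1
        ((Nat.dvd_lcm_left _ n).trans (hs.trans (mul_one n)).dvd))
      exact ⟨i, .inl e.symm⟩
    · rw [hs, mul_comm, Nat.totient_two_mul_of_even h] at key
      have := Nat.totient_pos.2 (NeZero.pos n)
      omega
  · obtain ⟨r, -, e⟩ := hζ.exists_pow_or_neg_mul_pow_of_isOfFinOrder h f
    exact ⟨r, e⟩

lemma okro_fld {A : Type} [AddCommGroup A] [Fintype A] {χ : AddChar A ℂ} (hχ : χ ∈ Fa A) :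
    ∃ (K : Type) (_ : Field K) (_ : NumberField K) (ι : K →+* ℂ) (e : ZA A →+* K),
      (∀ x, ι (e x) = ev χ x) ∧ (∀ z : K, IsIntegral ℤ z → ∃ x, e x = z) ∧
      ∀ (u : K) (k : ℕ), 0 < k → u ^ k = 1 → ∃ t, ι u = χ t ∨ ι u = -χ t := by
  have : NeZero (Fintype.card A) := ⟨Fintype.card_ne_zero⟩
  have hζ := Complex.isPrimitiveRoot_exp _ (NeZero.ne (Fintype.card A))
  generalize Complex.exp _ = ζ at hζ
  have h1 : ∀ a, χ a ^ Fintype.card A = 1 := fun a => by
    rw [← AddChar.map_nsmul_eq_pow, card_nsmul_eq_zero, AddChar.map_zero_eq_one]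
  obtain ⟨a0, ha0⟩ : ∃ a, χ a = ζ := by
    have h2 : univ.image χ = nthRootsFinset (Fintype.card A) (1 : ℂ) :=
      eq_of_subset_of_card_le (fun z hz => by
        obtain ⟨a, -, rfl⟩ := mem_image.1 hz
        exact (mem_nthRootsFinset (NeZero.pos _) _).2 (h1 a))
        (by rw [hζ.card_nthRootsFinset, card_image_of_injective _ (mem_Fa.1 hχ), card_univ])
    have h3 := (mem_nthRootsFinset (NeZero.pos _) (1 : ℂ)).2 hζ.pow_eq_one
    rw [← h2] at h3
    simpa using h3
  obtain ⟨K, _, _, hc, ι, ξ, rfl⟩ : ∃ (K : Type) (_ : Field K) (_ : CharZero K)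
      (_ : IsCyclotomicExtension {Fintype.card A} ℚ K) (ι : K →+* ℂ) (ξ : K), ι ξ = ζ := by
    refine ⟨IntermediateField.adjoin ℚ {ζ}, inferInstance, inferInstance, ?_, algebraMap _ _,
      IntermediateField.AdjoinSimple.gen ℚ ζ, rfl⟩
    change IsCyclotomicExtension _ ℚ (IntermediateField.adjoin ℚ {ζ}).toSubalgebra
    rw [IntermediateField.adjoin_simple_toSubalgebra_of_isAlgebraic
      ((hζ.isIntegral (NeZero.pos _)).tower_top (A := ℚ)).isAlgebraic]
    exact hζ.adjoin_isCyclotomicExtension ℚ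
  have := IsCyclotomicExtension.numberField {Fintype.card A} ℚ K
  have hξ := hζ.of_map_of_injective ι.injective
  choose f hf using fun a => (hζ.eq_pow_of_pow_eq_one (h1 a)).imp fun _ h => h.2
  let χ' : AddChar A K := ⟨fun a => ξ ^ f a, ι.injective (by simp [hf]), fun a b =>
    ι.injective (by simp only [map_mul, map_pow, hf, χ.map_add_eq_mul])⟩
  let e : ZA A →+* K := (AddMonoidAlgebra.lift ℤ K A χ'.toMonoidHom : ZA A →ₐ[ℤ] K)
  have e0 : ∀ x, ι (e x) = ev χ x := fun x =>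
    DFunLike.congr_fun (za_ext (f := ι.comp e) fun b => by simp [e, χ', hf]) x
  refine ⟨K, inferInstance, this, ι, e, e0, fun z hz => ?_, fun u k hk hu => ?_⟩
  · obtain ⟨⟨y, hy⟩, rfl⟩ :=
      (IsCyclotomicExtension.Rat.isIntegralClosure_adjoin_singleton hξ).isIntegral_iff.1 hz
    exact (Algebra.adjoin_le (S := e.toIntAlgHom.range) (Set.singleton_subset_iff.2
      ⟨.single a0 1, ι.injective (by simpa [ha0] using e0 (.single a0 1))⟩) hy :)
  · obtain ⟨r, e⟩ := okro_root hξ hk hu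
    refine ⟨r • a0, ?_⟩
    rw [AddChar.map_nsmul_eq_pow, ha0]
    exact e.imp (fun e => by rw [e, map_pow]) fun e => by rw [e, map_neg, map_pow]

theorem p_KRO (hhKER : Hy.S_KER) :
    S_KRO := by
  intro A _ _ χ hχ x p a hp hc hx
  obtain ⟨K, _, _, ι, e, k0, k1, k2⟩ := okro_fld hχ
  have ker : ∀ ψ ∈ Fa A, ∀ y z, ev χ y = ev χ z → ev ψ y = ev ψ z := fun ψ hψ y z e => by
    rw [← sub_eq_zero, ← map_sub] at e ⊢
    exact ((hhKER A χ hχ).1 ψ hψ).1 _ e
  have fp : χ.compAddMonoidHom (nsmulAddMonoidHom p) ∈ Fa A :=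
    mem_Fa.2 ((mem_Fa.1 hχ).comp (Nat.Coprime.nsmul_right_bijective hc.symm).1)
  have nm : ∀ ψ ∈ Fa A, ∀ y, ev χ y * conj (ev χ y) = p ^ a → ‖ev ψ y‖ ^ 2 = p ^ a :=
    fun ψ hψ y e => by
      have := ker ψ hψ (y * pu (-AddMonoidHom.id A) y) (p ^ a) (by
        rw [map_mul, ← conj_ev, e, map_pow, map_natCast])
      rw [map_mul, ← conj_ev, map_pow, map_natCast, Complex.mul_conj'] at this
      exact_mod_cast this
  have hx' : ev χ (pu (nsmulAddMonoidHom p) x) * conj (ev χ (pu (nsmulAddMonoidHom p) x)) =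
      p ^ a := by
    rw [ev_pu, Complex.mul_conj']
    exact_mod_cast nm _ fp x hx
  have ie : ∀ y, IsIntegral ℤ (e y) := fun y =>
    (isIntegral_algHom_iff ι.toIntAlgHom ι.injective).1 (by
      rw [RingHom.toIntAlgHom_apply, k0]
      exact str_int y)
  obtain ⟨w, hw⟩ : ∃ w, ev χ (pu (nsmulAddMonoidHom p) x) = ev χ w * ev χ x := by
    let f : ZA A →+* NumberField.RingOfIntegers K := e.codRestrict (integralClosure ℤ K) ie
    have f0 : ∀ y z, f y = f z ↔ ev χ y = ev χ z := fun y z => by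
      rw [← k0, ← k0, ι.injective.eq_iff]
      exact Subtype.ext_iff
    have f1 : Function.Surjective f := fun z => (k1 z.1 z.2).imp fun _ => Subtype.ext
    let σ := f.liftOfSurjective f1 ⟨f.comp (pu (nsmulAddMonoidHom p)), fun y hy => by
      rw [RingHom.mem_ker, ← map_zero f] at hy ⊢
      rw [RingHom.comp_apply, f0, ev_pu, ker _ fp _ _ ((f0 _ _).1 hy), map_zero, map_zero]⟩
    have s0 : ∀ y, σ (f y) = f (pu (nsmulAddMonoidHom p) y) := fun y =>
      f.liftOfRightInverse_comp_apply _ _ _ y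
    obtain ⟨u, hu⟩ := Ideal.mem_span_singleton'.1 (okro_ideal σ (a := a) hp.ne_zero (fun y => by
        obtain ⟨y, rfl⟩ := f1 y
        obtain ⟨z, hz⟩ := okro_frob hp y
        exact ⟨f z, by rw [← map_pow, hz, map_add, map_mul, map_natCast, s0]⟩)
      (Ideal.span {f x}) (Ideal.mem_span_singleton'.2 ⟨f (pu (-AddMonoidHom.id A) x), by
        rw [← map_mul, ← map_natCast f, ← map_pow, f0, map_mul, ← conj_ev, mul_comm, hx, map_pow,
          map_natCast]⟩)
      (Ideal.mem_map_of_mem σ (Ideal.mem_span_singleton_self _)))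
    obtain ⟨w, rfl⟩ := f1 u
    exact ⟨w, by rw [← map_mul, ← f0, map_mul, hu, s0]⟩
  have x0 : ∀ ψ ∈ Fa A, ‖ev ψ x‖ ≠ 0 := fun ψ hψ e => by
    have := nm ψ hψ x hx
    rw [e, zero_pow two_ne_zero] at this
    exact pow_ne_zero a (Nat.cast_ne_zero.2 hp.ne_zero) this.symm
  obtain ⟨k, hk, hu⟩ := NumberField.Embeddings.pow_eq_one_of_norm_eq_one K ℂ (ie w) fun φ => by
    let ψ : AddChar A ℂ := ⟨fun b => φ (e (.single b 1)), by
      rw [← AddMonoidAlgebra.one_def, map_one, map_one], fun b c => by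
      rw [← map_mul, ← map_mul, AddMonoidAlgebra.single_mul_single, mul_one]⟩
    have e1 : ∀ y, φ (e y) = ev ψ y := fun y =>
      DFunLike.congr_fun (za_ext (f := φ.comp e) fun b => by
        rw [ev_single, Int.cast_one, one_mul]
        rfl) y
    have hψ : ψ ∈ Fa A := mem_Fa.2 fun b c h => mem_Fa.1 hχ (by
      simpa only [k0, ev_single, Int.cast_one, one_mul] using congrArg ι (φ.injective h))
    have a1 := congrArg (‖·‖ ^ 2) (ker ψ hψ _ _ (hw.trans (map_mul _ _ _).symm))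
    simp only [map_mul, norm_mul, mul_pow, nm ψ hψ _ hx'] at a1
    rw [e1, ← sq_eq_sq₀ (norm_nonneg _) zero_le_one, one_pow]
    refine mul_right_cancel₀ (pow_ne_zero 2 (x0 ψ hψ)) ?_
    rw [← a1, one_mul, nm ψ hψ x hx]
  obtain ⟨t, h | h⟩ := k2 _ k hk hu
  · exact ⟨t, 1, .inl rfl, by rw [hw, ← k0, h, Int.cast_one, one_mul]⟩
  · exact ⟨t, -1, .inr rfl, by rw [hw, ← k0 w, h, Int.cast_neg, Int.cast_one, neg_one_mul]⟩

end

section

lemma oor_fa {A : Type} [AddCommGroup A] [Fintype A] {p : ℕ} (hp : p.Coprime (Nat.card A))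
    {ψ : AddChar A ℂ} (hψ : ψ ∈ Fa A) : ψ.compAddMonoidHom (nsmulAddMonoidHom p) ∈ Fa A :=
  mem_Fa.2 fun _ _ h => (nsmulCoprime hp.symm).injective (mem_Fa.1 hψ h)

lemma oor_supp {A : Type} [AddCommGroup A] [Fintype A] (p : ℕ) (t : A) (y : ZA A) (i : ℕ) :
    ∀ x, ((fun z : ZA A => AddMonoidAlgebra.single (-t) 1 * pu (nsmulAddMonoidHom p) z)^[i]
      y).coeff x ≠ 0 → ∃ u, y.coeff u ≠ 0 ∧ x = (fun x : A => p • x - t)^[i] u := by
  induction i with
  | zero => exact fun x hx => ⟨x, hx, rfl⟩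
  | succ i ih =>
    intro x hx
    rw [Function.iterate_succ_apply', coeff_single_mul, one_mul] at hx
    obtain ⟨v, hv, e⟩ := mem_image.1 (Finsupp.mapDomain_support (Finsupp.mem_support_iff.2 hx))
    obtain ⟨u, hu, rfl⟩ := ih v (Finsupp.mem_support_iff.1 hv)
    refine ⟨u, hu, ?_⟩
    rw [Function.iterate_succ_apply', eq_sub_iff_add_eq, ← sub_neg_eq_add]
    exact e.symm

theorem p_OR (hhKER : Hy.S_KER) :
    S_OR := by
  intro A _ _ P hP χ hχ y p t ε hp hε he a ha
  set Φ := fun z : ZA A => AddMonoidAlgebra.single (-t) 1 * pu (nsmulAddMonoidHom p) z with hΦ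
  have h0 : ∀ ψ ∈ Fa A, ev ψ (pu (nsmulAddMonoidHom p) y) = ε * ψ t * ev ψ y := by
    intro ψ hψ
    have := ((hhKER A χ hχ).1 ψ hψ).1 (pu (nsmulAddMonoidHom p) y - AddMonoidAlgebra.single t ε * y)
      (by rw [map_sub, map_mul, ev_single, he, sub_self])
    rwa [map_sub, map_mul, ev_single, sub_eq_zero] at this
  have h1 : ∀ i, ∀ ψ ∈ Fa A, ev ψ (Φ^[i] y) = ε ^ i * ev ψ y := by
    intro i
    induction i with
    | zero => intro ψ _; simp
    | succ i ih =>
      intro ψ hψ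
      rw [Function.iterate_succ_apply', hΦ]
      simp only [map_mul, ev_single]
      rw [ev_pu, ih _ (oor_fa hp hψ), ← ev_pu, h0 ψ hψ]
      have : ψ (-t) * ψ t = 1 := by rw [← AddChar.map_add_eq_mul, neg_add_cancel, ψ.map_zero_eq_one]
      push_cast
      linear_combination (ε ^ i * ε * ev ψ y) * this
  have h2 : ∀ i, ∃ c : A × A, (P.coeff c.1 ≠ 0 ∧ y.coeff c.2 ≠ 0) ∧
      a - c.1 = (fun x : A => p • x - t)^[i] c.2 := by
    intro i
    have e : P * Φ^[i] y = P * (AddMonoidAlgebra.single 0 (ε ^ i) * y) :=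
      hP.eq fun ψ hψ => by rw [h1 i ψ hψ, map_mul, ev_single]; simp
    have hne : (P * Φ^[i] y).coeff a ≠ 0 := by
      rw [e, mul_left_comm, coeff_single_mul, sub_zero]
      exact mul_ne_zero (pow_ne_zero _ (by rcases hε with h | h <;> simp [h])) ha
    obtain ⟨b, hb, hy⟩ := mul_ne hne
    obtain ⟨u, hu, e⟩ := oor_supp p t y i _ hy
    exact ⟨(b, u), ⟨hb, hu⟩, e⟩
  choose c hc hc' using h2
  have key : ∀ i j, i < j → j ≤ om A * sz y → c i = c j → ∃ (b : A) (k : ℕ), P.coeff b ≠ 0 ∧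
      0 < k ∧ k ≤ om A * sz y ∧ (fun x : A => p • x - t)^[k] (a - b) = a - b := by
    intro i j hij hj e
    refine ⟨(c i).1, j - i, (hc i).1, by omega, by omega, ?_⟩
    conv_lhs => rw [hc' i, ← Function.iterate_add_apply, Nat.sub_add_cancel hij.le, e, ← hc' j, ← e]
  obtain ⟨i, hi, j, hj, hne, e⟩ := exists_ne_map_eq_of_card_lt_of_maps_to
    (s := range (om A * sz y + 1)) (t := P.coeff.support ×ˢ y.coeff.support) (f := c)
    (by
      rw [card_product, card_range]
      exact Nat.lt_succ_of_le (Nat.mul_le_mul_right _ hP.sz))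
    (fun i _ => mem_coe.2 (mem_product.2 ⟨Finsupp.mem_support_iff.2 (hc i).1,
      Finsupp.mem_support_iff.2 (hc i).2⟩))
  rw [mem_range] at hi hj
  rcases lt_or_gt_of_ne hne with h | h
  · exact key i j h (by omega) e
  · exact key j i h (by omega) e.symm

end

section

lemma oper_iter {A : Type} [AddCommGroup A] (p : ℕ) (t a : A) (k : ℕ) :
    (fun x : A => p • x - t)^[k] a - a = (∑ i ∈ range k, p ^ i) • (p • a - a - t) := by
  induction k with
  | zero => simp
  | succ k ih =>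
    rw [Function.iterate_succ_apply', geom_sum_succ, eq_add_of_sub_eq ih]
    module

lemma oper_geom {A : Type} [AddCommGroup A] (p : ℕ) (a : A) (k : ℕ) :
    (∑ i ∈ range k, p ^ i) • (p • a - a) = p ^ k • a - a := by
  induction k with
  | zero => simp
  | succ k ih =>
    rw [geom_sum_succ, add_smul, mul_smul, ih]
    module

/-- The map `x ↦ q x - x`. -/
def oper_f (A : Type) [AddCommGroup A] (q : ℕ) : A →+ A where
  toFun x := q • x - x
  map_zero' := by simp
  map_add' x y := by module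

lemma oper_ker {A : Type} [AddCommGroup A] [Fintype A] (hc : IsAddCyclic A) (q : ℕ) :
    Nat.card (oper_f A q).ker * orderOf (q : ZMod (Nat.card A)) ≤ Nat.card A := by
  obtain ⟨g, hg⟩ := IsAddCyclic.exists_ofOrder_eq_natCard (α := A)
  have h1 : orderOf (q : ZMod (Nat.card A)) ≤ Nat.card (oper_f A q).range := by
    let F : Fin (orderOf (q : ZMod (Nat.card A))) → (oper_f A q).range := fun i =>
      ⟨q ^ (i : ℕ) • g - g, (∑ j ∈ range i, q ^ j) • g, by
        rw [map_nsmul, ← oper_geom]; rfl⟩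
    have hF : Function.Injective F := by
      intro i j e
      have e1 : q ^ (i : ℕ) • g = q ^ (j : ℕ) • g := sub_left_injective (congrArg Subtype.val e)
      rw [nsmul_eq_nsmul_iff_modEq, hg, ← ZMod.natCast_eq_natCast_iff, Nat.cast_pow,
        Nat.cast_pow] at e1
      exact Fin.ext (pow_injOn_Iio_orderOf i.2 j.2 e1)
    simpa using Nat.card_le_card_of_injective F hF
  calc _ ≤ Nat.card (oper_f A q).ker * (oper_f A q).ker.index := by
        rw [AddSubgroup.index_ker]; exact Nat.mul_le_mul_left _ h1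
    _ = _ := AddSubgroup.card_mul_index _

lemma oper_ord {M : Type} [Monoid M] (x : M) {k l : ℕ} (hk : 0 < k) (hl : k ≤ l) :
    orderOf x ≤ orderOf (x ^ k) * l := by
  rcases Nat.eq_zero_or_pos (orderOf x) with h | h
  · omega
  have h1 : 0 < orderOf (x ^ k) := (orderOf_pos_iff.1 h).pow.orderOf_pos
  have h2 : orderOf x ∣ orderOf (x ^ k) * k := by
    rw [orderOf_dvd_iff_pow_eq_one, mul_comm, pow_mul, pow_orderOf_eq_one]
  exact (Nat.le_of_dvd (Nat.mul_pos h1 hk) h2).trans (Nat.mul_le_mul_left _ hl)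

theorem p_PER :
    S_PER := by
  intro A _ _ hc p t l hl
  have h0 : 0 < Nat.card A := Nat.card_pos
  let Q : ℕ → ℕ × A → Prop := fun d w => 0 < w.1 ∧ w.1 ≤ l ∧
    Nat.gcd (Nat.card A) (∑ i ∈ range w.1, p ^ i) = d ∧ (fun x : A => p • x - t)^[w.1] w.2 = w.2
  refine ⟨fun d => if h : ∃ w, Q d w then h.choose.2 else 0,
    fun d => if h : ∃ w, Q d w then (oper_f A (p ^ h.choose.1)).ker else ⊥, fun d => ?_,
    fun a k hk hkl e => ?_⟩
  · by_cases h : ∃ w, Q d w
    · simp only [dif_pos h]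
      obtain ⟨a1, a2, -⟩ := h.choose_spec
      have b1 := oper_ker hc (p ^ h.choose.1)
      rw [Nat.cast_pow] at b1
      calc _ ≤ _ := Nat.mul_le_mul_left _ (oper_ord (p : ZMod (Nat.card A)) a1 a2)
        _ ≤ _ := by rw [← mul_assoc]; exact Nat.mul_le_mul_right _ b1
    · simp only [dif_neg h, AddSubgroup.card_bot, one_mul]
      have : NeZero (Nat.card A) := ⟨h0.ne'⟩
      have b1 : orderOf (p : ZMod (Nat.card A)) ≤ Nat.card A := by
        simpa using orderOf_le_card_univ (x := (p : ZMod (Nat.card A)))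
      exact b1.trans (Nat.le_mul_of_pos_right _ hl)
  · have h : ∃ w, Q (Nat.gcd (Nat.card A) (∑ i ∈ range k, p ^ i)) w := ⟨(k, a), hk, hkl, rfl, e⟩
    refine ⟨_, Nat.mem_divisors.2 ⟨Nat.gcd_dvd_left _ (∑ i ∈ range k, p ^ i), h0.ne'⟩, ?_⟩
    simp only [dif_pos h]
    obtain ⟨-, -, a3, a4⟩ := h.choose_spec
    generalize h.choose = w at a3 a4 ⊢
    have b1 := oper_iter p t a k
    have b2 := oper_iter p t w.2 w.1
    rw [e, sub_self, eq_comm, ← addOrderOf_dvd_iff_nsmul_eq_zero] at b1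
    rw [a4, sub_self] at b2
    have b3 : (∑ i ∈ range w.1, p ^ i) • (p • a - a - t) = 0 := by
      rw [← addOrderOf_dvd_iff_nsmul_eq_zero]
      refine (Nat.dvd_gcd (addOrderOf_dvd_natCard _) b1).trans ?_
      rw [← a3]
      exact Nat.gcd_dvd_right _ _
    rw [AddMonoidHom.mem_ker]
    show p ^ w.1 • (a - w.2) - (a - w.2) = 0
    rw [← oper_geom, ← sub_self (0 : A)]
    nth_rw 1 [← b3]
    rw [b2]
    module

end

section

theorem p_COS :
    S_COS := by
  intro A _ _ W q U V h0 hU hV H Z T hT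
  choose! f hf using fun x hx => (hT x hx).2
  set Hf : Finset A := {b | b ∈ H} with hHf
  set N : A → ℕ := fun b => #{a | W.coeff a ≠ 0 ∧ W.coeff (a + b) ≠ 0} with hN
  have h1 : #T = ∑ z ∈ Z, #{x ∈ T | f x = z} :=
    card_eq_sum_card_fiberwise fun x hx => (hf x hx).1
  have h2 : #T ^ 2 ≤ #Z * ∑ z ∈ Z, #{x ∈ T | f x = z} ^ 2 := by
    rw [h1]
    exact sq_sum_le_card_mul_sum_sq
  have h3 : ∑ z ∈ Z, #{x ∈ T | f x = z} ^ 2 = ∑ x ∈ T, #{y ∈ T | f y = f x} := by
    rw [← sum_fiberwise_of_maps_to (s := T) (t := Z) (g := f) fun x hx => (hf x hx).1]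
    refine sum_congr rfl fun z _ => ?_
    rw [sq]
    exact (sum_const_nat fun x hx => by rw [(mem_filter.1 hx).2]).symm
  have h4 : ∀ x ∈ T, #{y ∈ T | f y = f x} ≤ #{b ∈ Hf | W.coeff (x + b) ≠ 0} := by
    intro x hx
    refine card_le_card_of_injOn (fun y => y - x) (fun y hy => ?_) fun y _ y' _ e =>
      sub_left_injective e
    obtain ⟨hy, e⟩ := mem_filter.1 (mem_coe.1 hy)
    have := H.sub_mem (hf y hy).2 (hf x hx).2
    rw [e, sub_sub_sub_cancel_right] at this
    simpa [hHf] using ⟨this, (hT y hy).1⟩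
  have h5 : ∑ x ∈ T, #{b ∈ Hf | W.coeff (x + b) ≠ 0} ≤ ∑ b ∈ Hf, N b := by
    simp only [card_filter]
    rw [sum_comm]
    refine sum_le_sum fun b _ => ?_
    rw [← card_filter]
    exact card_le_card fun x hx => by
      simpa using ⟨(hT x (mem_filter.1 hx).1).1, (mem_filter.1 hx).2⟩
  have h6 : ∀ b, q * N b ≤ (if b = 0 then q * U else 0) + V := by
    intro b
    have e := cnt_pair h0 b
    split_ifs with hb
    · subst hb
      simp only [← sq, add_zero] at e
      have : N 0 ≤ U := by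
        have := e.trans hU
        simp only [hN, add_zero]
        exact_mod_cast this
      exact (Nat.mul_le_mul_left q this).trans (Nat.le_add_right _ _)
    · have := (mul_le_mul_of_nonneg_left e (Nat.cast_nonneg q)).trans (hV b hb)
      rw [zero_add]
      exact_mod_cast this
  have h7 : q * ∑ b ∈ Hf, N b ≤ q * U + Nat.card H * V := by
    have hc : #Hf = Nat.card H := by
      rw [Nat.card_eq_fintype_card, Fintype.card_subtype]
    rw [mul_sum, ← hc]
    refine (sum_le_sum fun b _ => h6 b).trans ?_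
    rw [sum_add_distrib, sum_ite_eq', sum_const, smul_eq_mul]
    split_ifs <;> omega
  calc q * #T ^ 2 ≤ q * (#Z * ∑ b ∈ Hf, N b) :=
        Nat.mul_le_mul_left q (h2.trans (Nat.mul_le_mul_left _
          (h3.trans_le ((sum_le_sum h4).trans h5))))
    _ = #Z * (q * ∑ b ∈ Hf, N b) := by ring
    _ ≤ _ := Nat.mul_le_mul_left _ h7

end

end Pool.Agent.P.MP_9344a7_nt.Od
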